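import Pool.Agent.H8.SD.Main

/-! # Independent coins -/

set_option autoImplicit false
set_option linter.unusedSectionVars false

noncomputable section

namespace Pool.Agent.H8.SD

open Finset Function
open scoped Classical

variable {V : Type}

/-- probability of the set `L` of heads -/
def pi' (p : ℝ) (U L : Finset V) : ℝ := p ^ L.card * (1 - p) ^ (U \ L).card

theorem pi'_nonneg {p : ℝ} (h0 : 0 ≤ p) (h1 : p ≤ 1) (U L : Finset V) : 0 ≤ pi' p U L := by
  unfold pi'
  exact mul_nonneg (pow_nonneg h0 _) (pow_nonneg (by linarith) _)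

theorem sum_pi' (p : ℝ) (U : Finset V) : ∑ L ∈ U.powerset, pi' p U L = 1 := by
  have h := prod_add (fun _ : V => p) (fun _ : V => 1 - p) U
  simp only [prod_const] at h
  unfold pi'
  rw [← h]
  simp

/-- expected sum over the heads -/
theorem sum_pi'_mul (p : ℝ) (U : Finset V) (z : V → ℝ) :
    ∑ L ∈ U.powerset, pi' p U L * ∑ t ∈ L, z t = p * ∑ t ∈ U, z t := by
  have h1 : ∀ t ∈ U, ∑ L ∈ U.powerset, (if t ∈ L then pi' p U L else 0) = p := by
    intro t ht
    have h := prod_add (fun _ : V => p) (fun u : V => if u = t then 0 else 1 - p) U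
    have e1 : ∏ u ∈ U, (p + if u = t then 0 else 1 - p) = p := by
      rw [← mul_prod_erase U _ ht]
      rw [if_pos rfl, add_zero]
      have : ∏ u ∈ U.erase t, (p + if u = t then 0 else 1 - p) = 1 := by
        refine prod_eq_one fun u hu => ?_
        rw [if_neg (ne_of_mem_erase hu)]
        ring
      rw [this, mul_one]
    rw [e1] at h
    refine Eq.trans ?_ h.symm
    refine sum_congr rfl fun L hL => ?_
    by_cases htL : t ∈ L
    · rw [if_pos htL]
      unfold pi'
      have e2 : ∏ u ∈ U \ L, (if u = t then (0 : ℝ) else 1 - p) = (1 - p) ^ (U \ L).card := by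
        rw [← prod_const]
        refine prod_congr rfl fun u hu => ?_
        rw [if_neg]
        rintro rfl
        exact (mem_sdiff.1 hu).2 htL
      rw [e2, prod_const]
    · rw [if_neg htL]
      have h0 : ∏ u ∈ U \ L, (if u = t then (0 : ℝ) else 1 - p) = 0 :=
        prod_eq_zero (i := t) (mem_sdiff.2 ⟨ht, htL⟩) (by simp)
      rw [h0, mul_zero]
  calc ∑ L ∈ U.powerset, pi' p U L * ∑ t ∈ L, z t =
      ∑ L ∈ U.powerset, ∑ t ∈ U, (if t ∈ L then pi' p U L else 0) * z t := by
        refine sum_congr rfl fun L hL => ?_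
        rw [mul_sum]
        have hLU : L ⊆ U := mem_powerset.1 hL
        rw [← sum_subset hLU]
        · refine sum_congr rfl fun t ht => ?_
          rw [if_pos ht]
        · intro t _ ht
          rw [if_neg ht, zero_mul]
    _ = ∑ t ∈ U, ∑ L ∈ U.powerset, (if t ∈ L then pi' p U L else 0) * z t := sum_comm
    _ = ∑ t ∈ U, p * z t := by
        refine sum_congr rfl fun t ht => ?_
        rw [← sum_mul, h1 t ht]
    _ = _ := by rw [mul_sum]

/-- the distribution of `L ∪ X` -/
theorem coin_union (p : ℝ) {U T X : Finset V} (hXT : X ⊆ T) (hTU : T ⊆ U) :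
    ∑ L ∈ U.powerset, (if L ∪ X = T then pi' p U L else 0) =
      (∏ u ∈ T, (if u ∈ X then 1 else p)) * (1 - p) ^ (U \ T).card := by
  have h := prod_add (fun u : V => if u ∈ T then p else 0)
    (fun u : V => if u ∈ T ∧ u ∉ X then 0 else 1 - p) U
  have e1 : ∏ u ∈ U, ((if u ∈ T then p else 0) + if u ∈ T ∧ u ∉ X then 0 else 1 - p) =
      (∏ u ∈ T, (if u ∈ X then 1 else p)) * (1 - p) ^ (U \ T).card := by
    rw [← prod_sdiff hTU, mul_comm]
    congr 1
    · refine prod_congr rfl fun u hu => ?_
      by_cases hX : u ∈ X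
      · simp [hu, hX]
      · simp [hu, hX]
    · rw [← prod_const]
      refine prod_congr rfl fun u hu => ?_
      simp [(mem_sdiff.1 hu).2]
  rw [← e1, h]
  refine sum_congr rfl fun L hL => ?_
  have hLU : L ⊆ U := mem_powerset.1 hL
  by_cases hc : L ∪ X = T
  · rw [if_pos hc]
    have hLT : L ⊆ T := by rw [← hc]; exact subset_union_left
    unfold pi'
    congr 1
    · rw [← prod_const]
      refine prod_congr rfl fun u hu => ?_
      rw [if_pos (hLT hu)]
    · rw [← prod_const]
      refine prod_congr rfl fun u hu => ?_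
      rw [if_neg]
      rintro ⟨h1, h2⟩
      rw [← hc] at h1
      rcases mem_union.1 h1 with h3 | h3
      · exact (mem_sdiff.1 hu).2 h3
      · exact h2 h3
  · rw [if_neg hc]
    symm
    by_cases hLT : L ⊆ T
    · apply mul_eq_zero_of_right
      have : ∃ u ∈ T, u ∉ L ∪ X := by
        by_contra h1
        push Not at h1
        exact hc (Subset.antisymm (union_subset hLT hXT) h1)
      obtain ⟨u, huT, hu⟩ := this
      rw [mem_union, not_or] at hu
      exact prod_eq_zero (mem_sdiff.2 ⟨hTU huT, hu.1⟩) (if_pos ⟨huT, hu.2⟩)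
    · apply mul_eq_zero_of_left
      obtain ⟨u, huL, huT⟩ := not_subset.1 hLT
      exact prod_eq_zero huL (if_neg huT)

theorem coin_union_zero (p : ℝ) {U T X : Finset V} (hXT : ¬ X ⊆ T) :
    ∑ L ∈ U.powerset, (if L ∪ X = T then pi' p U L else 0) = 0 := by
  refine sum_eq_zero fun L _ => ?_
  rw [if_neg]
  rintro rfl
  exact hXT subset_union_right

end Pool.Agent.H8.SD
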