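import Mathlib

/-! # Packing a locally sparse graph: counting partial packings

`G` has maximal degree at most `d` and every edge of `G` lies in at most `τ` triangles; `H` has
maximal degree at most `D`.  We count the maps `f : V → W` which are injective on `S` and map
the edges of `G` inside `S` to non-edges of `H`. -/

set_option autoImplicit false
set_option linter.unusedSectionVars false

noncomputable section

namespace Pool.Agent.H8.SD

open Finset Function
open scoped Classical

variable {V W : Type} [Fintype V] [Fintype W]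

/-- injective on `S`, and the edges of `G` inside `S` go to non-edges of `H` -/
def Ok (G : SimpleGraph V) (H : SimpleGraph W) (S : Finset V) (f : V → W) : Prop :=
  ∀ u ∈ S, ∀ w ∈ S, u ≠ w → f u ≠ f w ∧ (G.Adj u w → ¬ H.Adj (f u) (f w))

/-- the vertex `c` of `H` is available for `v` -/
def Av (G : SimpleGraph V) (H : SimpleGraph W) (S : Finset V) (v : V) (f : V → W) (c : W) :
    Prop :=
  ∀ w ∈ S, w ≠ v → c ≠ f w ∧ (G.Adj v w → ¬ H.Adj c (f w))

variable {G : SimpleGraph V} {H : SimpleGraph W}

theorem ok_congr {S : Finset V} {f g : V → W} (h : ∀ u ∈ S, f u = g u) :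
    Ok G H S f ↔ Ok G H S g := by
  constructor
  · intro hf u hu w hw hne
    rw [← h u hu, ← h w hw]
    exact hf u hu w hw hne
  · intro hf u hu w hw hne
    rw [h u hu, h w hw]
    exact hf u hu w hw hne

theorem av_congr {S : Finset V} {v : V} {f g : V → W} (h : ∀ u ∈ S, u ≠ v → f u = g u) (c : W) :
    Av G H S v f c ↔ Av G H S v g c := by
  constructor
  · intro hf w hw hne
    rw [← h w hw hne]
    exact hf w hw hne
  · intro hf w hw hne
    rw [h w hw hne]
    exact hf w hw hne

theorem ok_iff {S : Finset V} {u : V} (hu : u ∈ S) (f : V → W) :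
    Ok G H S f ↔ Ok G H (S.erase u) f ∧ Av G H (S.erase u) u f (f u) := by
  constructor
  · intro h
    refine ⟨fun x hx y hy hne => h x (mem_of_mem_erase hx) y (mem_of_mem_erase hy) hne,
      fun w hw hne => h u hu w (mem_of_mem_erase hw) hne.symm⟩
  · rintro ⟨h1, h2⟩ x hx y hy hne
    by_cases hxu : x = u
    · subst hxu
      exact h2 y (mem_erase.2 ⟨hne.symm, hy⟩) hne.symm
    · by_cases hyu : y = u
      · subst hyu
        have := h2 x (mem_erase.2 ⟨hne, hx⟩) hne
        exact ⟨this.1.symm, fun hadj hH => this.2 hadj.symm hH.symm⟩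
      · exact h1 x (mem_erase.2 ⟨hxu, hx⟩) y (mem_erase.2 ⟨hyu, hy⟩) hne

theorem swap (t : V) (w : (V → W) → ℝ) (hw : ∀ f c, w (update f t c) = w f)
    (R : (V → W) → W → Prop) (hR : ∀ f c c', R (update f t c) c' ↔ R f c') :
    (Fintype.card W : ℝ) * ∑ f, (if R f (f t) then w f else 0) =
      ∑ f, w f * ((univ.filter (R f)).card : ℝ) := by
  have h1 : ∑ f : V → W, w f * ((univ.filter (R f)).card : ℝ) =
      ∑ p : (V → W) × W, (if R p.1 p.2 then w p.1 else 0) := by
    rw [Fintype.sum_prod_type]
    refine sum_congr rfl fun f _ => ?_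
    show _ = ∑ c : W, (if R f c then w f else 0)
    rw [← sum_filter, sum_const, nsmul_eq_mul, mul_comm]
  have h2 : ∑ p : (V → W) × W, (if R p.1 p.2 then w p.1 else 0) =
      ∑ p : (V → W) × W, (if R p.1 (p.1 t) then w p.1 else 0) := by
    let φ : (V → W) × W → (V → W) × W := fun p => (update p.1 t p.2, p.1 t)
    have hφ : Function.Involutive φ := by
      intro p
      simp [φ]
    refine Fintype.sum_equiv hφ.toPerm _ _ fun p => ?_
    show _ = if R (update p.1 t p.2) ((update p.1 t p.2) t) then w (update p.1 t p.2) else 0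
    simp only [hR, hw, update_self]
  rw [h1, h2, Fintype.sum_prod_type, mul_sum]
  refine sum_congr rfl fun f _ => ?_
  simp only [sum_const, card_univ, nsmul_eq_mul]

/-- number of partial packings of `S` (times a power of the number of vertices of `H`) -/
def cnt (G : SimpleGraph V) (H : SimpleGraph W) (S : Finset V) : ℝ :=
  ∑ f : V → W, if Ok G H S f then (1 : ℝ) else 0

/-- number of available vertices -/
def ac (G : SimpleGraph V) (H : SimpleGraph W) (S : Finset V) (v : V) (f : V → W) : ℝ :=
  ((univ.filter (Av G H S v f)).card : ℝ)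

theorem ac_nonneg (S : Finset V) (v : V) (f : V → W) : 0 ≤ ac G H S v f := by
  unfold ac; positivity

theorem cnt_nonneg (S : Finset V) : 0 ≤ cnt G H S := by
  unfold cnt
  exact sum_nonneg fun f _ => by split_ifs <;> norm_num

theorem update_ne {S : Finset V} {t : V} (ht : t ∉ S) (f : V → W) (c : W) :
    ∀ u ∈ S, update f t c u = f u := by
  intro u hu
  rw [update_of_ne]
  rintro rfl
  exact ht hu

/-- counting the packings of `S ∪ {v}` -/
theorem cnt_insert {S : Finset V} {v : V} (hv : v ∉ S) :
    (Fintype.card W : ℝ) * cnt G H (insert v S) =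
      ∑ f : V → W, (if Ok G H S f then (1 : ℝ) else 0) * ac G H S v f := by
  have h := swap v (fun f : V → W => if Ok G H S f then (1 : ℝ) else 0)
    (fun f c => by simp only [ok_congr (update_ne hv f c)])
    (fun f c => Av G H S v f c)
    (fun f c c' => av_congr (fun u hu _ => update_ne hv f c u hu) c')
  unfold ac
  rw [← h]
  congr 1
  unfold cnt
  refine sum_congr rfl fun f _ => ?_
  have := ok_iff (G := G) (H := H) (mem_insert_self v S) f
  rw [erase_insert hv] at this
  by_cases h1 : Ok G H S f
  · by_cases h2 : Av G H S v f (f v)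
    · simp [this, h1, h2]
    · simp [this, h1, h2]
  · simp [this, h1]

/-- few packings have a short list at `u ∈ S` -/
theorem few_short {S : Finset V} {u : V} (hu : u ∈ S) {β s : ℝ} (hs : 0 ≤ s)
    (hW : 0 < Fintype.card W)
    (ih : β * cnt G H (S.erase u) ≤
      ∑ f : V → W, (if Ok G H (S.erase u) f then (1 : ℝ) else 0) * ac G H (S.erase u) u f)
    (hβ : 0 ≤ β) :
    β * ∑ f : V → W, (if Ok G H S f ∧ ac G H (S.erase u) u f ≤ s then (1 : ℝ) else 0) ≤
      s * cnt G H S := by
  have hu' : u ∉ S.erase u := notMem_erase u S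
  have hW' : (0 : ℝ) < Fintype.card W := by exact_mod_cast hW
  have hacu : ∀ (f : V → W) (c : W), ac G H (S.erase u) u (update f u c) =
      ac G H (S.erase u) u f := by
    intro f c
    unfold ac
    congr 2
    ext c'
    simp only [mem_filter, mem_univ, true_and]
    exact av_congr (fun x hx _ => update_ne hu' f c x hx) c'
  have h := swap u (fun f : V → W => if Ok G H (S.erase u) f ∧ ac G H (S.erase u) u f ≤ s
      then (1 : ℝ) else 0)
    (fun f c => by simp only [ok_congr (update_ne hu' f c), hacu])
    (fun f c => Av G H (S.erase u) u f c)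
    (fun f c c' => av_congr (fun x hx _ => update_ne hu' f c x hx) c')
  have h1 : ∑ f : V → W, (if Ok G H S f ∧ ac G H (S.erase u) u f ≤ s then (1 : ℝ) else 0) =
      ∑ f : V → W, (if Av G H (S.erase u) u f (f u) then
        (if Ok G H (S.erase u) f ∧ ac G H (S.erase u) u f ≤ s then (1 : ℝ) else 0) else 0) := by
    refine sum_congr rfl fun f _ => ?_
    have := ok_iff (G := G) (H := H) hu f
    by_cases h1 : Ok G H (S.erase u) f
    · by_cases h2 : Av G H (S.erase u) u f (f u)
      · simp [this, h1, h2]
      · simp [this, h1, h2]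
    · simp [this, h1]
  have h2 : (Fintype.card W : ℝ) * ∑ f : V → W,
      (if Ok G H S f ∧ ac G H (S.erase u) u f ≤ s then (1 : ℝ) else 0) ≤
      s * cnt G H (S.erase u) := by
    rw [h1, h]
    unfold cnt
    rw [mul_sum]
    refine sum_le_sum fun f _ => ?_
    change _ * ac G H (S.erase u) u f ≤ _
    have h0 := ac_nonneg (G := G) (H := H) (S.erase u) u f
    by_cases h3 : Ok G H (S.erase u) f
    · by_cases h4 : ac G H (S.erase u) u f ≤ s
      · simp [h3, h4]
      · simp [h3, h4, hs]
    · simp [h3]
  have h3 := cnt_insert (G := G) (H := H) hu'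
  rw [insert_erase hu] at h3
  rw [← h3] at ih
  set X := ∑ f : V → W, (if Ok G H S f ∧ ac G H (S.erase u) u f ≤ s then (1 : ℝ) else 0)
  have h4 : (Fintype.card W : ℝ) * (β * X) ≤ (Fintype.card W : ℝ) * (s * cnt G H S) := by
    calc (Fintype.card W : ℝ) * (β * X) = β * ((Fintype.card W : ℝ) * X) := by ring
      _ ≤ β * (s * cnt G H (S.erase u)) := mul_le_mul_of_nonneg_left h2 hβ
      _ = s * (β * cnt G H (S.erase u)) := by ring
      _ ≤ s * ((Fintype.card W : ℝ) * cnt G H S) := mul_le_mul_of_nonneg_left ih hs
      _ = _ := by ring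
  exact le_of_mul_le_mul_left h4 hW'

theorem ac_update {O : Finset V} {t : V} (ht : t ∉ O) (v : V) (f : V → W) (c : W) :
    ac G H O v (update f t c) = ac G H O v f := by
  unfold ac
  congr 2
  ext c'
  simp only [mem_filter, mem_univ, true_and]
  exact av_congr (fun x hx _ => update_ne ht f c x hx) c'

/-- the fraction of the list of `t` which is adjacent to `y` -/
def qf (G : SimpleGraph V) (H : SimpleGraph W) (O : Finset V) (s ρ : ℝ) (y : W) (t : V)
    (f : V → W) : ℝ :=
  if s < ac G H O t f then
    ((univ.filter fun c => Av G H O t f c ∧ H.Adj y c).card : ℝ) / (ac G H O t f - ρ) else 0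

theorem qf_update {O : Finset V} {s ρ : ℝ} {y : W} {t' : V} (ht : t' ∉ O) (t : V) (f : V → W)
    (c : W) : qf G H O s ρ y t (update f t' c) = qf G H O s ρ y t f := by
  unfold qf
  rw [ac_update ht]
  have : (univ.filter fun c' => Av G H O t (update f t' c) c' ∧ H.Adj y c') =
      univ.filter fun c' => Av G H O t f c' ∧ H.Adj y c' := by
    ext c'
    simp only [mem_filter, mem_univ, true_and]
    rw [av_congr (fun x hx _ => update_ne ht f c x hx) c']
  rw [this]

theorem qf_nonneg {O : Finset V} {s ρ : ℝ} (hρs : ρ < s) (y : W) (t : V) (f : V → W) :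
    0 ≤ qf G H O s ρ y t f := by
  unfold qf
  split_ifs with h
  · apply div_nonneg (by positivity)
    linarith
  · exact le_refl 0

theorem qf_le {O : Finset V} {s ρ D : ℝ} (hρs : ρ < s)
    (hD : ∀ x : W, ((univ.filter fun c => H.Adj x c).card : ℝ) ≤ D) (y : W) (t : V)
    (f : V → W) : qf G H O s ρ y t f ≤ D / (s - ρ) := by
  have hD0 : 0 ≤ D := le_trans (by positivity) (hD y)
  unfold qf
  split_ifs with h
  · have h1 : ((univ.filter fun c => Av G H O t f c ∧ H.Adj y c).card : ℝ) ≤ D := by
      refine le_trans ?_ (hD y)
      exact_mod_cast card_le_card fun c hc => by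
        simp only [mem_filter, mem_univ, true_and] at hc ⊢
        exact hc.2
    have h2 : 0 < s - ρ := by linarith
    exact div_le_div₀ hD0 h1 h2 (by linarith)
  · exact div_nonneg hD0 (by linarith)

/-- no vertex of `L` with a long list goes to a neighbour of `y` -/
def PL (G : SimpleGraph V) (H : SimpleGraph W) (O : Finset V) (s : ℝ) (y : W) (L : Finset V)
    (f : V → W) : Prop := ∀ x ∈ L, s < ac G H O x f → ¬ H.Adj y (f x)

def R2 (G : SimpleGraph V) (H : SimpleGraph W) (O T : Finset V) (s : ℝ) (y : W) (t : V)
    (f : V → W) (c : W) : Prop := Av G H T t f c ∧ (s < ac G H O t f → ¬ H.Adj y c)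

theorem avoid (y : W) {S O : Finset V} (hOS : O ⊆ S) {ρ s D : ℝ} (hW : 0 < Fintype.card W)
    (hρs : ρ < s) (hDs : D ≤ s - ρ)
    (hD : ∀ x : W, ((univ.filter fun c => H.Adj x c).card : ℝ) ≤ D)
    (hlow : ∀ t ∈ S \ O, ∀ f : V → W, ac G H O t f - ρ ≤ ac G H (S.erase t) t f) :
    ∀ L : Finset V, L ⊆ S \ O → ∀ w : (V → W) → ℝ, (∀ f, 0 ≤ w f) →
      (∀ t ∈ S \ O, ∀ f c, w (update f t c) = w f) →
      ∑ f : V → W, (if Ok G H S f then w f * ∏ t ∈ L, (1 - qf G H O s ρ y t f) else 0) ≤
        ∑ f : V → W, (if Ok G H S f ∧ PL G H O s y L f then w f else 0) := by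
  have hW' : (0 : ℝ) < Fintype.card W := by exact_mod_cast hW
  have hq1 : ∀ t f, qf G H O s ρ y t f ≤ 1 := by
    intro t f
    refine (qf_le hρs hD y t f).trans ?_
    rw [div_le_one (by linarith)]
    exact hDs
  intro L
  induction L using Finset.induction_on with
  | empty =>
    intro _ w _ _
    simp [PL]
  | insert t L htL ih =>
    intro hL w hw0 hw
    have htU : t ∈ S \ O := hL (mem_insert_self t L)
    have htS : t ∈ S := (mem_sdiff.1 htU).1
    have htO : t ∉ O := (mem_sdiff.1 htU).2
    have hLU : L ⊆ S \ O := fun x hx => hL (mem_insert_of_mem hx)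
    have ht' : t ∉ S.erase t := notMem_erase t S
    have key := ih hLU (fun f => w f * (1 - qf G H O s ρ y t f))
      (fun f => mul_nonneg (hw0 f) (by linarith [hq1 t f]))
      (fun x hx f c => by
        simp only [hw x hx, qf_update (mem_sdiff.1 hx).2])
    have e1 : ∑ f : V → W, (if Ok G H S f then
        w f * ∏ x ∈ insert t L, (1 - qf G H O s ρ y x f) else 0) =
        ∑ f : V → W, (if Ok G H S f then
        w f * (1 - qf G H O s ρ y t f) * ∏ x ∈ L, (1 - qf G H O s ρ y x f) else 0) := by
      refine sum_congr rfl fun f _ => ?_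
      rw [prod_insert htL, mul_assoc]
    rw [e1]
    refine key.trans ?_
    -- one vertex
    have hP : ∀ f c, PL G H O s y L (update f t c) ↔ PL G H O s y L f := by
      intro f c
      constructor
      · intro h x hx hs
        have := h x hx (by rw [ac_update htO]; exact hs)
        rwa [update_of_ne] at this
        rintro rfl; exact htL hx
      · intro h x hx hs
        rw [ac_update htO] at hs
        have := h x hx hs
        rwa [update_of_ne]
        rintro rfl; exact htL hx
    have s1 := swap t (fun f : V → W => if Ok G H (S.erase t) f ∧ PL G H O s y L f then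
        w f * (1 - qf G H O s ρ y t f) else 0)
      (fun f c => by
        simp only [ok_congr (update_ne ht' f c), hP, hw t htU, qf_update htO])
      (fun f c => Av G H (S.erase t) t f c)
      (fun f c c' => av_congr (fun x hx _ => update_ne ht' f c x hx) c')
    have s2 := swap t (fun f : V → W => if Ok G H (S.erase t) f ∧ PL G H O s y L f then w f else 0)
      (fun f c => by
        simp only [ok_congr (update_ne ht' f c), hP, hw t htU])
      (fun f c => R2 G H O (S.erase t) s y t f c)
      (fun f c c' => by
        simp only [R2, av_congr (fun x hx _ => update_ne ht' f c x hx) c', ac_update htO])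
    have t1 : ∑ f : V → W, (if Ok G H S f ∧ PL G H O s y L f
        then w f * (1 - qf G H O s ρ y t f) else 0) =
        ∑ f : V → W, (if Av G H (S.erase t) t f (f t) then
          (if Ok G H (S.erase t) f ∧ PL G H O s y L f then w f * (1 - qf G H O s ρ y t f) else 0)
          else 0) := by
      refine sum_congr rfl fun f _ => ?_
      have := ok_iff (G := G) (H := H) htS f
      by_cases h1 : Ok G H (S.erase t) f
      · by_cases h2 : Av G H (S.erase t) t f (f t)
        · simp [this, h1, h2]
        · simp [this, h1, h2]
      · simp [this, h1]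
    have t2 : ∑ f : V → W, (if Ok G H S f ∧ PL G H O s y (insert t L) f then w f else 0) =
        ∑ f : V → W, (if R2 G H O (S.erase t) s y t f (f t) then
          (if Ok G H (S.erase t) f ∧ PL G H O s y L f then w f else 0) else 0) := by
      refine sum_congr rfl fun f _ => ?_
      have := ok_iff (G := G) (H := H) htS f
      have h4 : PL G H O s y (insert t L) f ↔
          (s < ac G H O t f → ¬ H.Adj y (f t)) ∧ PL G H O s y L f := by
        unfold PL
        rw [forall_mem_insert]
      have h5 : (Ok G H S f ∧ PL G H O s y (insert t L) f) ↔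
          (R2 G H O (S.erase t) s y t f (f t) ∧ (Ok G H (S.erase t) f ∧ PL G H O s y L f)) := by
        rw [this, h4]
        unfold R2
        tauto
      by_cases h6 : Ok G H S f ∧ PL G H O s y (insert t L) f
      · have h7 := h5.1 h6
        rw [if_pos h6, if_pos h7.1, if_pos h7.2]
      · rw [if_neg h6]
        by_cases h8 : R2 G H O (S.erase t) s y t f (f t)
        · rw [if_pos h8, if_neg]
          exact fun h9 => h6 (h5.2 ⟨h8, h9⟩)
        · rw [if_neg h8]
    rw [t1, t2]
    refine le_of_mul_le_mul_left ?_ hW'
    rw [s1, s2]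
    refine sum_le_sum fun f _ => ?_
    by_cases h1 : Ok G H (S.erase t) f ∧ PL G H O s y L f
    · rw [if_pos h1, if_pos h1, mul_assoc]
      refine mul_le_mul_of_nonneg_left ?_ (hw0 f)
      change (1 - qf G H O s ρ y t f) * ac G H (S.erase t) t f ≤ _
      by_cases hs : s < ac G H O t f
      · have hq : qf G H O s ρ y t f =
            ((univ.filter fun c => Av G H O t f c ∧ H.Adj y c).card : ℝ) /
              (ac G H O t f - ρ) := by
          unfold qf; rw [if_pos hs]
        have hpos : 0 < ac G H O t f - ρ := by linarith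
        have hl := hlow t htU f
        set K : ℝ := ((univ.filter fun c => Av G H O t f c ∧ H.Adj y c).card : ℝ) with hK
        have hK0 : 0 ≤ K := by rw [hK]; positivity
        have h5 : K ≤ qf G H O s ρ y t f * ac G H (S.erase t) t f := by
          rw [hq, div_mul_eq_mul_div, le_div_iff₀ hpos]
          exact mul_le_mul_of_nonneg_left hl hK0
        have h6 : ac G H (S.erase t) t f ≤
            ((univ.filter fun c => R2 G H O (S.erase t) s y t f c).card : ℝ) + K := by
          unfold ac
          rw [hK]
          have hsub : (univ.filter (Av G H (S.erase t) t f)) ⊆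
              (univ.filter fun c => R2 G H O (S.erase t) s y t f c) ∪
              (univ.filter fun c => Av G H O t f c ∧ H.Adj y c) := by
            intro c hc
            have hc : Av G H (S.erase t) t f c := (mem_filter.1 hc).2
            by_cases hy : H.Adj y c
            · refine mem_union_right _ (mem_filter.2 ⟨mem_univ _, ?_, hy⟩)
              exact fun x hx hne => hc x (mem_erase.2 ⟨hne, hOS hx⟩) hne
            · refine mem_union_left _ (mem_filter.2 ⟨mem_univ _, ?_⟩)
              exact ⟨hc, fun _ => hy⟩
          calc ((univ.filter (Av G H (S.erase t) t f)).card : ℝ) ≤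
              (((univ.filter fun c => R2 G H O (S.erase t) s y t f c) ∪
              (univ.filter fun c => Av G H O t f c ∧ H.Adj y c)).card : ℝ) := by
                exact_mod_cast card_le_card hsub
            _ ≤ _ := by exact_mod_cast card_union_le _ _
        have h7 : (1 - qf G H O s ρ y t f) * ac G H (S.erase t) t f =
            ac G H (S.erase t) t f - qf G H O s ρ y t f * ac G H (S.erase t) t f := by ring
        rw [h7]
        linarith
      · have hq : qf G H O s ρ y t f = 0 := by
          unfold qf; rw [if_neg hs]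
        rw [hq, sub_zero, one_mul]
        unfold ac
        have : (univ.filter (Av G H (S.erase t) t f)) ⊆
            (univ.filter fun c => R2 G H O (S.erase t) s y t f c) := by
          intro c hc
          have hc : Av G H (S.erase t) t f c := (mem_filter.1 hc).2
          refine mem_filter.2 ⟨mem_univ _, ?_⟩
          exact ⟨hc, fun h => absurd h hs⟩
        exact_mod_cast card_le_card this
    · rw [if_neg h1, if_neg h1]
      simp

end Pool.Agent.H8.SD
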