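import Pool.Agent.H8.SD.Key

/-! # Sums over `y` -/

set_option autoImplicit false
set_option linter.unusedSectionVars false

noncomputable section

namespace Pool.Agent.H8.SD

open Finset Function
open scoped Classical

variable {V W : Type} [Fintype V] [Fintype W]
variable {G : SimpleGraph V} {H : SimpleGraph W}

/-- the loss for long lists -/
def q0 (G : SimpleGraph V) (H : SimpleGraph W) (p ρ s0 : ℝ) (O : Finset V) (y : W) (t : V)
    (f : V → W) : ℝ := if s0 < ac G H O t f then qq G H p ρ O y t f else 0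

/-- short list -/
def zz (G : SimpleGraph V) (H : SimpleGraph W) (S : Finset V) (s : ℝ) (t : V) (f : V → W) : ℝ :=
  if ac G H (S.erase t) t f ≤ s then 1 else 0

theorem zz_nonneg (S : Finset V) (s : ℝ) (t : V) (f : V → W) : 0 ≤ zz G H S s t f := by
  unfold zz; split_ifs <;> norm_num

theorem q0_nonneg {p ρ s0 k : ℝ} (hp : 0 < p)
    (hD : ∀ x : W, ((univ.filter fun c => H.Adj x c).card : ℝ) ≤ k) (hs0 : ρ + k ≤ s0)
    (O : Finset V) (y : W) (t : V) (f : V → W) : 0 ≤ q0 G H p ρ s0 O y t f := by
  unfold q0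
  split_ifs with h
  · unfold qq
    have h1 := bc_nonneg (G := G) (H := H) O y t f
    have h2 := bc_le (G := G) hD O y t f
    exact div_nonneg h1 (mul_nonneg hp.le (by linarith))
  · exact le_refl 0

theorem sum_hit {k : ℝ} (hD : ∀ x : W, ((univ.filter fun c => H.Adj x c).card : ℝ) ≤ k)
    (U : Finset V) (f : V → W) (z : V → ℝ) (hz : ∀ t, 0 ≤ z t) :
    ∑ y : W, ∑ t ∈ Hit H U y f, z t ≤ k * ∑ t ∈ U, z t := by
  unfold Hit
  simp only [sum_filter]
  rw [sum_comm, mul_sum]
  refine sum_le_sum fun t _ => ?_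
  rw [← sum_filter, sum_const, nsmul_eq_mul]
  refine mul_le_mul_of_nonneg_right ?_ (hz t)
  refine le_trans (le_of_eq ?_) (hD (f t))
  congr 2
  ext y
  simp only [mem_filter, mem_univ, true_and]
  exact ⟨fun h => h.symm, fun h => h.symm⟩

theorem sum_card_hit {k : ℝ} (hD : ∀ x : W, ((univ.filter fun c => H.Adj x c).card : ℝ) ≤ k)
    (U : Finset V) (f : V → W) : ∑ y : W, ((Hit H U y f).card : ℝ) ≤ k * U.card := by
  have h := sum_hit hD U f (fun _ => 1) (fun _ => zero_le_one)
  simpa using h

/-- sum over `y` of the losses of a lazy vertex: here `H` has to be triangle-free -/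
theorem sum_q0 {p ρ s0 k : ℝ} (hp : 0 < p) (hk : 0 < k) (hρ : 0 ≤ ρ)
    (hD : ∀ x : W, ((univ.filter fun c => H.Adj x c).card : ℝ) ≤ k)
    (hs0 : 2 * (ρ + k) ≤ s0) (htri : ∀ a b c : W, H.Adj a b → H.Adj b c → H.Adj a c → False)
    {S U L : Finset V} (t : V) (f : V → W) :
    ∑ y : W, q0 G H p ρ s0 (S \ (L ∪ Hit H U y f)) y t f ≤
      2 / p * (k + k * U.card / s0) := by
  have hs0' : 0 < s0 := by linarith
  set al := ac G H (S \ L) t f with hal
  have hal0 : 0 ≤ al := ac_nonneg _ _ _
  have hpt : ∀ y : W, q0 G H p ρ s0 (S \ (L ∪ Hit H U y f)) y t f ≤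
      2 / p * (bc G H (S \ L) y t f / al + (Hit H U y f).card / s0) := by
    intro y
    have hr : 0 ≤ 2 / p * (bc G H (S \ L) y t f / al + (Hit H U y f).card / s0) := by
      have := bc_nonneg (G := G) (H := H) (S \ L) y t f
      positivity
    unfold q0
    split_ifs with hlong
    · set T := L ∪ Hit H U y f with hT
      have hsub : S \ T ⊆ S \ L := sdiff_subset_sdiff (Subset.refl S) subset_union_left
      have h1 : al ≤ ac G H (S \ T) t f := ac_mono hsub t f
      have h2 : bc G H (S \ T) y t f ≤ bc G H (S \ L) y t f + (Hit H U y f).card := by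
        have hs : (univ.filter fun c => Av G H (S \ T) t f c ∧ H.Adj y c) ⊆
            (univ.filter fun c => Av G H (S \ L) t f c ∧ H.Adj y c) ∪ (Hit H U y f).image f := by
          intro c hc
          obtain ⟨hc1, hc2⟩ := (mem_filter.1 hc).2
          by_cases h : Av G H (S \ L) t f c
          · exact mem_union_left _ (mem_filter.2 ⟨mem_univ _, h, hc2⟩)
          · refine mem_union_right _ ?_
            unfold Av at h
            push Not at h
            obtain ⟨w, hw, hne, h3⟩ := h
            obtain ⟨hwS, hwL⟩ := mem_sdiff.1 hw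
            have hwT : w ∈ T := by
              by_contra hwT
              have h4 := hc1 w (mem_sdiff.2 ⟨hwS, hwT⟩) hne
              obtain ⟨h5, h6⟩ := h3 h4.1
              exact h4.2 h5 h6
            have hwH : w ∈ Hit H U y f := by
              rcases mem_union.1 hwT with h4 | h4
              · exact absurd h4 hwL
              · exact h4
            by_cases hcw : c = f w
            · exact mem_image.2 ⟨w, hwH, hcw.symm⟩
            · exfalso
              obtain ⟨h5, h6⟩ := h3 hcw
              exact htri y c (f w) hc2 h6 (mem_filter.1 hwH).2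
        have h3 := (card_le_card hs).trans (card_union_le _ _)
        have h4 := h3.trans (Nat.add_le_add_left card_image_le _)
        unfold bc
        exact_mod_cast h4
      have hbk := bc_le (G := G) hD (S \ T) y t f
      have hb0 := bc_nonneg (G := G) (H := H) (S \ T) y t f
      set a := ac G H (S \ T) t f with ha
      set b := bc G H (S \ T) y t f with hb
      have ha0 : 0 < a := by linarith
      have h5 : a / 2 ≤ a - b - ρ := by linarith
      have h6 : qq G H p ρ (S \ T) y t f ≤ 2 / p * (b / a) := by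
        unfold qq
        rw [← ha, ← hb]
        rw [show 2 / p * (b / a) = b / (p * (a / 2)) by field_simp]
        refine div_le_div_of_nonneg_left hb0 (by positivity) ?_
        exact mul_le_mul_of_nonneg_left h5 hp.le
      refine h6.trans (mul_le_mul_of_nonneg_left ?_ (by positivity))
      have hbl0 := bc_nonneg (G := G) (H := H) (S \ L) y t f
      have h7 : b / a ≤ bc G H (S \ L) y t f / a + (Hit H U y f).card / a := by
        rw [← add_div]
        exact div_le_div_of_nonneg_right h2 ha0.le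
      have h8 : ((Hit H U y f).card : ℝ) / a ≤ (Hit H U y f).card / s0 :=
        div_le_div_of_nonneg_left (by positivity) hs0' hlong.le
      have h9 : bc G H (S \ L) y t f / a ≤ bc G H (S \ L) y t f / al := by
        rcases eq_or_lt_of_le hal0 with h0 | h0
        · have h10 : bc G H (S \ L) y t f ≤ al := by
            rw [hal]
            unfold bc ac
            refine Nat.cast_le.2 (card_le_card fun c hc => ?_)
            obtain ⟨h, _⟩ := (mem_filter.1 hc).2
            exact mem_filter.2 ⟨mem_univ _, h⟩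
          have h11 : bc G H (S \ L) y t f = 0 := by linarith
          rw [h11, zero_div, zero_div]
        · exact div_le_div_of_nonneg_left hbl0 h0 h1
      linarith
    · exact hr
  have hsb : ∑ y : W, bc G H (S \ L) y t f ≤ al * k := by
    unfold bc
    calc ∑ y : W, ((univ.filter fun c => Av G H (S \ L) t f c ∧ H.Adj y c).card : ℝ) =
        ∑ y : W, ∑ c ∈ univ.filter (Av G H (S \ L) t f), (if H.Adj y c then (1 : ℝ) else 0) := by
          refine sum_congr rfl fun y _ => ?_
          rw [sum_boole, filter_filter]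
      _ = ∑ c ∈ univ.filter (Av G H (S \ L) t f), ∑ y : W, (if H.Adj y c then (1 : ℝ) else 0) :=
          sum_comm
      _ = ∑ c ∈ univ.filter (Av G H (S \ L) t f),
          ((univ.filter fun y => H.Adj c y).card : ℝ) := by
          refine sum_congr rfl fun c _ => ?_
          rw [sum_boole]
          congr 2
          ext y
          simp only [mem_filter, mem_univ, true_and]
          exact ⟨fun h => h.symm, fun h => h.symm⟩
      _ ≤ ∑ c ∈ univ.filter (Av G H (S \ L) t f), k := sum_le_sum fun c _ => hD c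
      _ = al * k := by rw [sum_const, nsmul_eq_mul]; rfl
  calc ∑ y : W, q0 G H p ρ s0 (S \ (L ∪ Hit H U y f)) y t f ≤
      ∑ y : W, 2 / p * (bc G H (S \ L) y t f / al + (Hit H U y f).card / s0) :=
        sum_le_sum fun y _ => hpt y
    _ = 2 / p * ((∑ y : W, bc G H (S \ L) y t f) / al +
        (∑ y : W, ((Hit H U y f).card : ℝ)) / s0) := by
        rw [← mul_sum, sum_add_distrib, sum_div, sum_div]
    _ ≤ 2 / p * (k + k * U.card / s0) := by
        refine mul_le_mul_of_nonneg_left (add_le_add ?_ ?_) (by positivity)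
        · rcases eq_or_lt_of_le hal0 with h0 | h0
          · rw [← h0, div_zero]; exact hk.le
          · rw [div_le_iff₀ h0]; linarith
        · exact div_le_div_of_nonneg_right (sum_card_hit hD U f) hs0'.le

/-- the bad situation -/
theorem bad_le {p ρ M s0 s1 qm k : ℝ} (hp : 0 < p) (hM : 0 < M)
    (hD : ∀ x : W, ((univ.filter fun c => H.Adj x c).card : ℝ) ≤ k)
    (hs0 : ρ + k ≤ s0) (hqm : 0 < qm) (hs01 : s0 ≤ s1)
    (hs1 : k / (qm * p) + k + ρ ≤ s1) {S U L : Finset V} (y : W) (f : V → W)
    (hG : ¬ Gd G H p ρ M s0 qm S (L ∪ Hit H U y f) y f) :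
    1 ≤ (L.card : ℝ) / M + (Hit H U y f).card / M + ∑ t ∈ Hit H U y f, zz G H S s1 t f +
      ∑ t ∈ L, zz G H S s0 t f +
      ∑ t ∈ L, zz G H S s1 t f * (q0 G H p ρ s0 (S \ (L ∪ Hit H U y f)) y t f / qm) := by
  set T := L ∪ Hit H U y f with hT
  have n1 : 0 ≤ (L.card : ℝ) / M := by positivity
  have n2 : 0 ≤ ((Hit H U y f).card : ℝ) / M := by positivity
  have n3 : 0 ≤ ∑ t ∈ Hit H U y f, zz G H S s1 t f := sum_nonneg fun t _ => zz_nonneg _ _ _ _
  have n4 : 0 ≤ ∑ t ∈ L, zz G H S s0 t f := sum_nonneg fun t _ => zz_nonneg _ _ _ _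
  have n5' : ∀ t ∈ L, 0 ≤ zz G H S s1 t f * (q0 G H p ρ s0 (S \ T) y t f / qm) := fun t _ =>
    mul_nonneg (zz_nonneg _ _ _ _) (div_nonneg (q0_nonneg hp hD hs0 _ _ _ _) hqm.le)
  have n5 := sum_nonneg n5'
  unfold Gd at hG
  rw [not_and_or] at hG
  rcases hG with h | h
  · push Not at h
    have h1 : (T.card : ℝ) ≤ L.card + (Hit H U y f).card := by
      rw [hT]; exact_mod_cast card_union_le _ _
    have h2 : 1 ≤ (L.card : ℝ) / M + (Hit H U y f).card / M := by
      rw [← add_div, one_le_div hM]
      linarith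
    linarith
  · push Not at h
    obtain ⟨t, htT, ht⟩ := h
    have hsub : S \ T ⊆ S.erase t := by
      intro x hx
      obtain ⟨h1, h2⟩ := mem_sdiff.1 hx
      refine mem_erase.2 ⟨?_, h1⟩
      rintro rfl
      exact h2 htT
    have hmono := ac_mono (G := G) (H := H) hsub t f
    by_cases hlong : s0 < ac G H (S \ T) t f
    · have hq := ht hlong
      have hbk := bc_le (G := G) hD (S \ T) y t f
      have hlt : ac G H (S \ T) t f ≤ s1 := by
        by_contra hcon
        push Not at hcon
        have h3 : k / (qm * p) < ac G H (S \ T) t f - bc G H (S \ T) y t f - ρ := by linarith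
        have h4 : k < (ac G H (S \ T) t f - bc G H (S \ T) y t f - ρ) * (qm * p) := by
          rwa [div_lt_iff₀ (by positivity)] at h3
        have hpos : 0 < ac G H (S \ T) t f - bc G H (S \ T) y t f - ρ := by linarith
        have h5 : qq G H p ρ (S \ T) y t f ≤ qm := by
          unfold qq
          rw [div_le_iff₀ (by positivity)]
          nlinarith
        linarith
      have hz : zz G H S s1 t f = 1 := by
        unfold zz
        rw [if_pos (hmono.trans hlt)]
      rcases mem_union.1 htT with h1 | h1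
      · have h6 := single_le_sum n5' h1
        have h7 : q0 G H p ρ s0 (S \ T) y t f = qq G H p ρ (S \ T) y t f := by
          unfold q0; rw [if_pos hlong]
        rw [hz, one_mul, h7] at h6
        have h8 : 1 ≤ qq G H p ρ (S \ T) y t f / qm := by
          rw [one_le_div hqm]; exact hq.le
        linarith
      · have h6 := single_le_sum (f := fun t => zz G H S s1 t f)
          (fun t _ => zz_nonneg _ _ _ _) h1
        simp only [hz] at h6
        linarith
    · push Not at hlong
      rcases mem_union.1 htT with h1 | h1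
      · have hz : zz G H S s0 t f = 1 := by
          unfold zz
          rw [if_pos (hmono.trans hlong)]
        have h6 := single_le_sum (f := fun t => zz G H S s0 t f)
          (fun t _ => zz_nonneg _ _ _ _) h1
        simp only [hz] at h6
        linarith
      · have hz : zz G H S s1 t f = 1 := by
          unfold zz
          rw [if_pos (hmono.trans (hlong.trans hs01))]
        have h6 := single_le_sum (f := fun t => zz G H S s1 t f)
          (fun t _ => zz_nonneg _ _ _ _) h1
        simp only [hz] at h6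
        linarith

/-- lower bound for the value of the hidden set -/
theorem FF_ge {p ρ M s0 s1 qm k θ x0 : ℝ} (hp : 0 < p) (hM : 0 < M)
    (hD : ∀ x : W, ((univ.filter fun c => H.Adj x c).card : ℝ) ≤ k)
    (hs0 : ρ + k ≤ s0) (hqm : 0 < qm) (hqm1 : qm < 1) (hs01 : s0 ≤ s1)
    (hs1 : k / (qm * p) + k + ρ ≤ s1) (hθ : 1 ≤ θ * (1 - qm)) (hθ0 : 0 ≤ θ) (hx0 : 0 ≤ x0)
    {S U L : Finset V} (y : W) (f : V → W) :
    Real.exp (-x0) * (1 + x0 - θ * (qm * (Hit H U y f).card +
      ∑ t ∈ L, q0 G H p ρ s0 (S \ (L ∪ Hit H U y f)) y t f) -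
      (1 + x0) * ((L.card : ℝ) / M + (Hit H U y f).card / M +
      ∑ t ∈ Hit H U y f, zz G H S s1 t f + ∑ t ∈ L, zz G H S s0 t f +
      ∑ t ∈ L, zz G H S s1 t f * (q0 G H p ρ s0 (S \ (L ∪ Hit H U y f)) y t f / qm))) ≤
    FF G H p ρ M s0 qm S y f (L ∪ Hit H U y f) := by
  set T := L ∪ Hit H U y f with hT
  have n1 : 0 ≤ (L.card : ℝ) / M := by positivity
  have n2 : 0 ≤ ((Hit H U y f).card : ℝ) / M := by positivity
  have n3 : 0 ≤ ∑ t ∈ Hit H U y f, zz G H S s1 t f := sum_nonneg fun t _ => zz_nonneg _ _ _ _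
  have n4 : 0 ≤ ∑ t ∈ L, zz G H S s0 t f := sum_nonneg fun t _ => zz_nonneg _ _ _ _
  have n5 : 0 ≤ ∑ t ∈ L, zz G H S s1 t f * (q0 G H p ρ s0 (S \ T) y t f / qm) :=
    sum_nonneg fun t _ =>
    mul_nonneg (zz_nonneg _ _ _ _) (div_nonneg (q0_nonneg hp hD hs0 _ _ _ _) hqm.le)
  have n6 : 0 ≤ ∑ t ∈ L, q0 G H p ρ s0 (S \ T) y t f :=
    sum_nonneg fun t _ => q0_nonneg hp hD hs0 _ _ _ _
  unfold FF
  by_cases hG : Gd G H p ρ M s0 qm S T y f
  · rw [if_pos hG]
    have hq : ∀ t ∈ T, qq G H p ρ (S \ T) y t f = q0 G H p ρ s0 (S \ T) y t f := by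
      intro t ht
      unfold q0
      rw [if_pos (hG.2 t ht).1]
    have h1 : Real.exp (-(θ * ∑ t ∈ T, qq G H p ρ (S \ T) y t f)) ≤
        ∏ t ∈ T, (1 - qq G H p ρ (S \ T) y t f) := by
      rw [mul_sum, ← sum_neg_distrib, Real.exp_sum]
      refine prod_le_prod (fun t _ => (Real.exp_pos _).le) fun t ht => ?_
      have hq1 : 0 ≤ qq G H p ρ (S \ T) y t f := by
        rw [hq t ht]; exact q0_nonneg hp hD hs0 _ _ _ _
      have hq2 := (hG.2 t ht).2
      refine exp_le_one_sub hq1 (lt_of_le_of_lt hq2 hqm1) (hθ.trans ?_)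
      exact mul_le_mul_of_nonneg_left (by linarith) hθ0
    refine le_trans ?_ h1
    have h2 : ∑ t ∈ T, qq G H p ρ (S \ T) y t f ≤ qm * (Hit H U y f).card +
        ∑ t ∈ L, q0 G H p ρ s0 (S \ T) y t f := by
      have h3 : ∑ t ∈ T, qq G H p ρ (S \ T) y t f = ∑ t ∈ T, q0 G H p ρ s0 (S \ T) y t f :=
        sum_congr rfl hq
      rw [h3]
      have h4 : ∑ t ∈ T, q0 G H p ρ s0 (S \ T) y t f ≤ ∑ t ∈ L, q0 G H p ρ s0 (S \ T) y t f +
          ∑ t ∈ Hit H U y f, q0 G H p ρ s0 (S \ T) y t f := by
        rw [← sum_union_inter (s₁ := L) (s₂ := Hit H U y f), ← hT]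
        have : 0 ≤ ∑ t ∈ L ∩ Hit H U y f, q0 G H p ρ s0 (S \ T) y t f :=
          sum_nonneg fun t _ => q0_nonneg hp hD hs0 _ _ _ _
        linarith
      have h5 : ∑ t ∈ Hit H U y f, q0 G H p ρ s0 (S \ T) y t f ≤ qm * (Hit H U y f).card := by
        calc ∑ t ∈ Hit H U y f, q0 G H p ρ s0 (S \ T) y t f ≤ ∑ t ∈ Hit H U y f, qm := by
              refine sum_le_sum fun t ht => ?_
              have htT : t ∈ T := mem_union_right _ ht
              rw [← hq t htT]
              exact (hG.2 t htT).2
          _ = _ := by rw [sum_const, nsmul_eq_mul, mul_comm]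
      linarith
    have h3 := Real.add_one_le_exp (x0 - θ * ∑ t ∈ T, qq G H p ρ (S \ T) y t f)
    have h4 : Real.exp (-(θ * ∑ t ∈ T, qq G H p ρ (S \ T) y t f)) =
        Real.exp (-x0) * Real.exp (x0 - θ * ∑ t ∈ T, qq G H p ρ (S \ T) y t f) := by
      rw [← Real.exp_add]
      congr 1
      ring
    rw [h4]
    refine mul_le_mul_of_nonneg_left ?_ (Real.exp_pos _).le
    have h5 := mul_le_mul_of_nonneg_left h2 hθ0
    have h6 : 0 ≤ (1 + x0) * ((L.card : ℝ) / M + (Hit H U y f).card / M +
      ∑ t ∈ Hit H U y f, zz G H S s1 t f + ∑ t ∈ L, zz G H S s0 t f +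
      ∑ t ∈ L, zz G H S s1 t f * (q0 G H p ρ s0 (S \ T) y t f / qm)) :=
      mul_nonneg (by linarith) (by linarith)
    linarith
  · rw [if_neg hG]
    have h1 := bad_le hp hM hD hs0 hqm hs01 hs1 y f hG
    rw [← hT] at h1
    have h2 : 0 ≤ θ * (qm * (Hit H U y f).card + ∑ t ∈ L, q0 G H p ρ s0 (S \ T) y t f) := by
      refine mul_nonneg hθ0 (add_nonneg (by positivity) n6)
    refine mul_nonpos_of_nonneg_of_nonpos (Real.exp_pos _).le ?_
    nlinarith

end Pool.Agent.H8.SD
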