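import Pool.Agent.H8.SD.Seq

/-! # The key inequality: average over the hidden set -/

set_option autoImplicit false
set_option linter.unusedSectionVars false

noncomputable section

namespace Pool.Agent.H8.SD

open Finset Function
open scoped Classical

variable {V W : Type} [Fintype V] [Fintype W]
variable {G : SimpleGraph V} {H : SimpleGraph W}

/-- value of the hidden set `T` -/
def FF (G : SimpleGraph V) (H : SimpleGraph W) (p ρ M s0 qm : ℝ) (S : Finset V) (y : W)
    (f : V → W) (T : Finset V) : ℝ :=
  if Gd G H p ρ M s0 qm S T y f then ∏ t ∈ T, (1 - qq G H p ρ (S \ T) y t f) else 0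

/-- the vertices of `U` which go to neighbours of `y` -/
def Hit (H : SimpleGraph W) (U : Finset V) (y : W) (f : V → W) : Finset V :=
  U.filter fun u => H.Adj y (f u)

theorem key_T {p ρ M s0 qm k : ℝ} (hp : 0 < p)
    (hD : ∀ x : W, ((univ.filter fun c => H.Adj x c).card : ℝ) ≤ k)
    (hk : 0 ≤ k) (hρ : ρ = M * (k + 1)) (hs0 : ρ + k ≤ s0) (hqm : qm ≤ 1)
    (hW : 0 < Fintype.card W) (y : W) {S U T : Finset V} (hUS : U ⊆ S) (hTU : T ⊆ U) :
    ∑ f : V → W, (if Ok G H S f ∧ NA H y (U \ T) f then
        FF G H p ρ M s0 qm S y f T * ee H p y T f else 0) ≤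
      p ^ T.card * ∑ f : V → W, (if Ok G H S f ∧ NA H y U f then (1 : ℝ) else 0) := by
  have h := seq (G := G) hp hD hk hρ hs0 hqm hW y (B := U \ T) (hTU.trans hUS)
    (sdiff_disjoint) T (Subset.refl T)
    (fun f => if Gd G H p ρ M s0 qm S T y f then (1 : ℝ) else 0)
    (fun f => by split_ifs <;> norm_num)
    (fun f hf => by
      by_contra h
      exact hf (if_neg h))
    (fun t ht f c => by simp only [gd_update ht])
  have e1 : ∑ f : V → W, (if Ok G H S f ∧ NA H y (U \ T) f then
        FF G H p ρ M s0 qm S y f T * ee H p y T f else 0) =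
      ∑ f : V → W, (if Ok G H S f ∧ NA H y (U \ T) f then
        (if Gd G H p ρ M s0 qm S T y f then (1 : ℝ) else 0) *
          (∏ t ∈ T, (1 - qq G H p ρ (S \ T) y t f)) * ee H p y T f else 0) := by
    refine sum_congr rfl fun f _ => ?_
    congr 2
    unfold FF
    split_ifs <;> ring
  rw [e1]
  refine h.trans ?_
  rw [mul_sum]
  refine sum_le_sum fun f _ => ?_
  by_cases h1 : Ok G H S f ∧ NA H y (U \ T) f ∧ NA H y T f
  · have h2 : NA H y U f := by
      intro u hu
      by_cases huT : u ∈ T
      · exact h1.2.2 u huT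
      · exact h1.2.1 u (mem_sdiff.2 ⟨hu, huT⟩)
    have h5 : (if Ok G H S f ∧ NA H y U f then (1 : ℝ) else 0) = 1 := if_pos ⟨h1.1, h2⟩
    rw [if_pos h1, h5, mul_one]
    have h3 : ee H p y T f = p ^ T.card := by
      unfold ee
      rw [← prod_const]
      refine prod_congr rfl fun u hu => ?_
      rw [if_neg (h1.2.2 u hu)]
    rw [h3]
    have h4 : 0 ≤ p ^ T.card := pow_nonneg hp.le _
    split_ifs
    · rw [one_mul]
    · rw [zero_mul]; exact h4
  · rw [if_neg h1]
    split_ifs
    · exact mul_nonneg (pow_nonneg hp.le _) zero_le_one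
    · rw [mul_zero]

theorem key {p ρ M s0 qm k : ℝ} (hp : 0 < p) (hp1 : p ≤ 1)
    (hD : ∀ x : W, ((univ.filter fun c => H.Adj x c).card : ℝ) ≤ k)
    (hk : 0 ≤ k) (hρ : ρ = M * (k + 1)) (hs0 : ρ + k ≤ s0) (hqm : qm ≤ 1)
    (hW : 0 < Fintype.card W) (y : W) {S U : Finset V} (hUS : U ⊆ S) :
    ∑ f : V → W, (if Ok G H S f then
        ∑ L ∈ U.powerset, pi' p U L * FF G H p ρ M s0 qm S y f (L ∪ Hit H U y f) else 0) ≤
      ∑ f : V → W, (if Ok G H S f ∧ NA H y U f then (1 : ℝ) else 0) := by
  have hid : ∀ f : V → W,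
      ∑ L ∈ U.powerset, pi' p U L * FF G H p ρ M s0 qm S y f (L ∪ Hit H U y f) =
      ∑ T ∈ U.powerset, (if NA H y (U \ T) f then
        FF G H p ρ M s0 qm S y f T * ee H p y T f else 0) * (1 - p) ^ (U \ T).card := by
    intro f
    have hX : Hit H U y f ⊆ U := filter_subset _ _
    calc ∑ L ∈ U.powerset, pi' p U L * FF G H p ρ M s0 qm S y f (L ∪ Hit H U y f) =
        ∑ L ∈ U.powerset, ∑ T ∈ U.powerset, (if L ∪ Hit H U y f = T then
          pi' p U L * FF G H p ρ M s0 qm S y f T else 0) := by
          refine sum_congr rfl fun L hL => ?_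
          rw [sum_ite_eq, if_pos]
          exact mem_powerset.2 (union_subset (mem_powerset.1 hL) hX)
      _ = ∑ T ∈ U.powerset, ∑ L ∈ U.powerset, (if L ∪ Hit H U y f = T then
          pi' p U L * FF G H p ρ M s0 qm S y f T else 0) := sum_comm
      _ = ∑ T ∈ U.powerset, (∑ L ∈ U.powerset, (if L ∪ Hit H U y f = T then
          pi' p U L else 0)) * FF G H p ρ M s0 qm S y f T := by
          refine sum_congr rfl fun T _ => ?_
          rw [sum_mul]
          refine sum_congr rfl fun L _ => ?_
          split_ifs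
          · rfl
          · rw [zero_mul]
      _ = _ := by
          refine sum_congr rfl fun T hT => ?_
          have hTU := mem_powerset.1 hT
          have hiff : NA H y (U \ T) f ↔ Hit H U y f ⊆ T := by
            constructor
            · intro h u hu
              obtain ⟨hu1, hu2⟩ := mem_filter.1 hu
              by_contra h3
              exact h u (mem_sdiff.2 ⟨hu1, h3⟩) hu2
            · intro h u hu hadj
              exact (mem_sdiff.1 hu).2 (h (mem_filter.2 ⟨(mem_sdiff.1 hu).1, hadj⟩))
          by_cases h1 : Hit H U y f ⊆ T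
          · rw [coin_union p h1 hTU, if_pos (hiff.2 h1)]
            have h2 : ∏ u ∈ T, (if u ∈ Hit H U y f then (1 : ℝ) else p) = ee H p y T f := by
              unfold ee
              refine prod_congr rfl fun u hu => ?_
              have : u ∈ Hit H U y f ↔ H.Adj y (f u) := by
                unfold Hit
                rw [mem_filter]
                exact ⟨fun h => h.2, fun h => ⟨hTU hu, h⟩⟩
              simp only [this]
            rw [h2]
            ring
          · rw [coin_union_zero p h1, if_neg (fun h => h1 (hiff.1 h))]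
            ring
  have e1 : ∑ f : V → W, (if Ok G H S f then
        ∑ L ∈ U.powerset, pi' p U L * FF G H p ρ M s0 qm S y f (L ∪ Hit H U y f) else 0) =
      ∑ T ∈ U.powerset, (∑ f : V → W, (if Ok G H S f ∧ NA H y (U \ T) f then
        FF G H p ρ M s0 qm S y f T * ee H p y T f else 0)) * (1 - p) ^ (U \ T).card := by
    calc _ = ∑ f : V → W, ∑ T ∈ U.powerset, (if Ok G H S f ∧ NA H y (U \ T) f then
        FF G H p ρ M s0 qm S y f T * ee H p y T f else 0) * (1 - p) ^ (U \ T).card := by
          refine sum_congr rfl fun f _ => ?_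
          by_cases h : Ok G H S f
          · rw [if_pos h, hid f]
            refine sum_congr rfl fun T _ => ?_
            by_cases h2 : NA H y (U \ T) f
            · rw [if_pos h2, if_pos ⟨h, h2⟩]
            · rw [if_neg h2, if_neg (fun h3 => h2 h3.2)]
          · rw [if_neg h]
            symm
            refine sum_eq_zero fun T _ => ?_
            rw [if_neg (fun h3 => h h3.1), zero_mul]
      _ = _ := by
          rw [sum_comm]
          refine sum_congr rfl fun T _ => ?_
          rw [sum_mul]
  rw [e1]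
  calc _ ≤ ∑ T ∈ U.powerset, (p ^ T.card *
        ∑ f : V → W, (if Ok G H S f ∧ NA H y U f then (1 : ℝ) else 0)) *
          (1 - p) ^ (U \ T).card := by
        refine sum_le_sum fun T hT => ?_
        refine mul_le_mul_of_nonneg_right ?_ (pow_nonneg (by linarith) _)
        exact key_T hp hD hk hρ hs0 hqm hW y hUS (mem_powerset.1 hT)
    _ = (∑ T ∈ U.powerset, pi' p U T) *
        ∑ f : V → W, (if Ok G H S f ∧ NA H y U f then (1 : ℝ) else 0) := by
        rw [sum_mul]
        refine sum_congr rfl fun T _ => ?_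
        unfold pi'
        ring
    _ = _ := by rw [sum_pi', one_mul]

end Pool.Agent.H8.SD
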