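import Pool.Agent.H8.SD.Core

/-! # Packing a locally sparse graph: the induction -/

set_option autoImplicit false
set_option linter.unusedSectionVars false

noncomputable section

namespace Pool.Agent.H8.SD

open Finset Function
open scoped Classical

variable {V W : Type} [Fintype V] [Fintype W]
variable {G : SimpleGraph V} {H : SimpleGraph W}

theorem av_mono {O S : Finset V} (h : O ⊆ S) {v : V} {f : V → W} {c : W} (hc : Av G H S v f c) :
    Av G H O v f c := fun w hw hne => hc w (h hw) hne

theorem ac_mono {O S : Finset V} (h : O ⊆ S) (v : V) (f : V → W) :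
    ac G H S v f ≤ ac G H O v f := by
  unfold ac
  exact_mod_cast card_le_card fun c hc => mem_filter.2 ⟨mem_univ _, av_mono h (mem_filter.1 hc).2⟩

/-- conditioning on the other neighbours of `v` costs at most `d + τ D` -/
theorem low {S : Finset V} {v t : V} {d τ : ℕ} {D : ℝ}
    (hd : (univ.filter fun w => G.Adj v w).card ≤ d)
    (hτ : (univ.filter fun w => G.Adj v w ∧ G.Adj t w).card ≤ τ)
    (hD : ∀ x : W, ((univ.filter fun c => H.Adj x c).card : ℝ) ≤ D)
    (ht : t ∈ S.filter (fun w => G.Adj v w)) (f : V → W) :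
    ac G H (S.filter fun w => ¬ G.Adj v w) t f - (d + τ * D) ≤ ac G H (S.erase t) t f := by
  set U := S.filter (fun w => G.Adj v w) with hU
  set O := S.filter (fun w => ¬ G.Adj v w) with hO
  have hsub : (univ.filter (Av G H O t f)) ⊆ (univ.filter (Av G H (S.erase t) t f)) ∪
      (((U.erase t).image f) ∪
        ((U.erase t).filter (fun w => G.Adj t w)).biUnion
          (fun w => univ.filter fun c => H.Adj (f w) c)) := by
    intro c hc
    have hc : Av G H O t f c := (mem_filter.1 hc).2
    by_cases h : Av G H (S.erase t) t f c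
    · exact mem_union_left _ (mem_filter.2 ⟨mem_univ _, h⟩)
    · refine mem_union_right _ ?_
      unfold Av at h
      push Not at h
      obtain ⟨w, hw, hne, h2⟩ := h
      have hwS : w ∈ S := mem_of_mem_erase hw
      by_cases hvw : G.Adj v w
      · have hwU : w ∈ U.erase t := mem_erase.2 ⟨hne, mem_filter.2 ⟨hwS, hvw⟩⟩
        by_cases hcw : c = f w
        · exact mem_union_left _ (mem_image.2 ⟨w, hwU, hcw.symm⟩)
        · obtain ⟨h3, h4⟩ := h2 hcw
          refine mem_union_right _ (mem_biUnion.2 ⟨w, mem_filter.2 ⟨hwU, h3⟩, ?_⟩)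
          exact mem_filter.2 ⟨mem_univ _, h4.symm⟩
      · have h3 := hc w (mem_filter.2 ⟨hwS, hvw⟩) hne
        obtain ⟨h4, h5⟩ := h2 h3.1
        exact absurd h5 (h3.2 h4)
  have hD0 : 0 ≤ D := by
    by_cases hW : Nonempty W
    · obtain ⟨x⟩ := hW
      exact le_trans (by positivity) (hD x)
    · exact absurd ⟨f t⟩ hW
  have h1 : ((univ.filter (Av G H O t f)).card : ℝ) ≤
      (univ.filter (Av G H (S.erase t) t f)).card + ((((U.erase t).image f).card : ℝ) +
        ((((U.erase t).filter (fun w => G.Adj t w)).biUnion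
          (fun w => univ.filter fun c => H.Adj (f w) c)).card : ℝ)) := by
    have := card_le_card hsub
    have h2 := this.trans (card_union_le _ _)
    have h3 := h2.trans (Nat.add_le_add_left (card_union_le _ _) _)
    exact_mod_cast h3
  have h2 : (((U.erase t).image f).card : ℝ) ≤ d := by
    have : ((U.erase t).image f).card ≤ d := by
      refine card_image_le.trans ((card_le_card (erase_subset _ _)).trans ?_)
      refine (card_le_card ?_).trans hd
      intro w hw
      exact mem_filter.2 ⟨mem_univ _, (mem_filter.1 hw).2⟩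
    exact_mod_cast this
  have h3 : ((((U.erase t).filter (fun w => G.Adj t w)).biUnion
          (fun w => univ.filter fun c => H.Adj (f w) c)).card : ℝ) ≤ τ * D := by
    have e1 : ((U.erase t).filter (fun w => G.Adj t w)).card ≤ τ := by
      refine (card_le_card ?_).trans hτ
      intro w hw
      have hw1 := mem_filter.1 hw
      exact mem_filter.2 ⟨mem_univ _, (mem_filter.1 (mem_of_mem_erase hw1.1)).2, hw1.2⟩
    calc ((((U.erase t).filter (fun w => G.Adj t w)).biUnion
          (fun w => univ.filter fun c => H.Adj (f w) c)).card : ℝ) ≤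
        ((∑ w ∈ (U.erase t).filter (fun w => G.Adj t w),
          (univ.filter fun c => H.Adj (f w) c).card : ℕ) : ℝ) := by
          exact_mod_cast card_biUnion_le
      _ = ∑ w ∈ (U.erase t).filter (fun w => G.Adj t w),
          ((univ.filter fun c => H.Adj (f w) c).card : ℝ) := by push_cast; rfl
      _ ≤ ∑ w ∈ (U.erase t).filter (fun w => G.Adj t w), D := sum_le_sum fun w _ => hD (f w)
      _ = ((U.erase t).filter (fun w => G.Adj t w)).card * D := by
          rw [sum_const, nsmul_eq_mul]
      _ ≤ τ * D := mul_le_mul_of_nonneg_right (by exact_mod_cast e1) hD0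
  unfold ac
  linarith

theorem exp_le_one_sub {q θ : ℝ} (hq : 0 ≤ q) (hq1 : q < 1) (hθ : 1 ≤ θ * (1 - q)) :
    Real.exp (-(θ * q)) ≤ 1 - q := by
  have h1 : 0 < 1 - q := by linarith
  rw [Real.exp_neg, inv_le_comm₀ (Real.exp_pos _) h1]
  have h2 := Real.add_one_le_exp (θ * q)
  refine le_trans ?_ h2
  rw [inv_le_comm₀ h1 (by nlinarith [mul_nonneg hq (by nlinarith : (0:ℝ) ≤ θ)])]
  have hθ0 : 0 ≤ θ := by
    by_contra h
    push Not at h
    nlinarith
  rw [inv_le_comm₀ (by positivity) h1]
  rw [inv_le_iff_one_le_mul₀ h1]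
  nlinarith

/-- the average over `y` of the probability to avoid the neighbourhood of `y` -/
theorem avg {O U : Finset V} {s ρ D θ x0 : ℝ} (hρ : 0 ≤ ρ) (hρs : ρ < s) (hDs : D < s - ρ)
    (hD : ∀ x : W, ((univ.filter fun c => H.Adj x c).card : ℝ) ≤ D) (hD0 : 0 ≤ D)
    (hθ : 1 ≤ θ * (1 - D / (s - ρ))) (hθ0 : 0 ≤ θ)
    (hx : θ * (U.card * (D * (s / (s - ρ)))) ≤ x0 * Fintype.card W) (f : V → W) :
    Real.exp (-x0) * Fintype.card W ≤ ∑ y : W, ∏ t ∈ U, (1 - qf G H O s ρ y t f) := by
  have hsρ : 0 < s - ρ := by linarith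
  have hq0 : D / (s - ρ) < 1 := by rw [div_lt_one hsρ]; exact hDs
  -- sum over y
  have hsum : ∀ t, ∑ y : W, qf G H O s ρ y t f ≤ D * (s / (s - ρ)) := by
    intro t
    have hs0 : 0 < s := by linarith
    unfold qf
    split_ifs with h
    · have hpos : 0 < ac G H O t f - ρ := by linarith
      rw [← sum_div]
      have h1 : ∑ y : W, ((univ.filter fun c => Av G H O t f c ∧ H.Adj y c).card : ℝ) ≤
          ac G H O t f * D := by
        calc ∑ y : W, ((univ.filter fun c => Av G H O t f c ∧ H.Adj y c).card : ℝ) =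
            ∑ y : W, ∑ c ∈ univ.filter (Av G H O t f), (if H.Adj y c then (1 : ℝ) else 0) := by
              refine sum_congr rfl fun y _ => ?_
              rw [sum_boole, filter_filter]
          _ = ∑ c ∈ univ.filter (Av G H O t f), ∑ y : W, (if H.Adj y c then (1 : ℝ) else 0) :=
              sum_comm
          _ = ∑ c ∈ univ.filter (Av G H O t f),
              ((univ.filter fun y => H.Adj c y).card : ℝ) := by
              refine sum_congr rfl fun c _ => ?_
              rw [sum_boole]
              congr 2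
              ext y
              simp only [mem_filter, mem_univ, true_and]
              exact ⟨fun h => h.symm, fun h => h.symm⟩
          _ ≤ ∑ c ∈ univ.filter (Av G H O t f), D := sum_le_sum fun c _ => hD c
          _ = ac G H O t f * D := by rw [sum_const, nsmul_eq_mul]; rfl
      refine (div_le_div_of_nonneg_right h1 hpos.le).trans ?_
      rw [mul_comm (ac G H O t f) D, mul_div_assoc]
      refine mul_le_mul_of_nonneg_left ?_ hD0
      rw [div_le_div_iff₀ hpos hsρ]
      nlinarith
    · rw [sum_const_zero]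
      positivity
  have h1 : ∀ y : W, Real.exp (-x0) * (1 + x0 - θ * ∑ t ∈ U, qf G H O s ρ y t f) ≤
      ∏ t ∈ U, (1 - qf G H O s ρ y t f) := by
    intro y
    have h2 : Real.exp (-(θ * ∑ t ∈ U, qf G H O s ρ y t f)) ≤
        ∏ t ∈ U, (1 - qf G H O s ρ y t f) := by
      rw [mul_sum, ← sum_neg_distrib, Real.exp_sum]
      refine prod_le_prod (fun t _ => (Real.exp_pos _).le) fun t _ => ?_
      have hq := qf_nonneg (G := G) (H := H) (O := O) hρs y t f
      have hq' := qf_le (G := G) (H := H) (O := O) hρs hD y t f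
      refine exp_le_one_sub hq (lt_of_le_of_lt hq' hq0) (hθ.trans ?_)
      exact mul_le_mul_of_nonneg_left (by linarith) hθ0
    refine le_trans ?_ h2
    have h3 := Real.add_one_le_exp (x0 - θ * ∑ t ∈ U, qf G H O s ρ y t f)
    have h4 : Real.exp (-(θ * ∑ t ∈ U, qf G H O s ρ y t f)) =
        Real.exp (-x0) * Real.exp (x0 - θ * ∑ t ∈ U, qf G H O s ρ y t f) := by
      rw [← Real.exp_add]
      congr 1
      ring
    rw [h4]
    exact mul_le_mul_of_nonneg_left (by linarith) (Real.exp_pos _).le
  refine le_trans ?_ (sum_le_sum fun y _ => h1 y)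
  rw [← mul_sum]
  refine mul_le_mul_of_nonneg_left ?_ (Real.exp_pos _).le
  rw [sum_sub_distrib, ← mul_sum, sum_comm, sum_const, card_univ, nsmul_eq_mul]
  have h5 : ∑ t ∈ U, ∑ y : W, qf G H O s ρ y t f ≤ U.card * (D * (s / (s - ρ))) := by
    calc ∑ t ∈ U, ∑ y : W, qf G H O s ρ y t f ≤ ∑ t ∈ U, (D * (s / (s - ρ))) :=
          sum_le_sum fun t _ => hsum t
      _ = _ := by rw [sum_const, nsmul_eq_mul]
  have h6 := mul_le_mul_of_nonneg_left h5 hθ0
  nlinarith

end Pool.Agent.H8.SD
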