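import Pool.Agent.H8.SD.Step

/-! # Packing a locally sparse graph: numbers -/

set_option autoImplicit false
set_option linter.unusedSectionVars false

noncomputable section

namespace Pool.Agent.H8.SD

open Finset Function
open scoped Classical

variable {V W : Type} [Fintype V] [Fintype W]
variable {G : SimpleGraph V} {H : SimpleGraph W}

theorem pack_num {d τ : ℕ} {x0 β : ℝ} (hV : 0 < Fintype.card V)
    (hdk : d ≤ Fintype.card V)
    (hdeg : ∀ v : V, (univ.filter fun w => G.Adj v w).card ≤ d)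
    (hτ : ∀ v t : V, G.Adj v t → (univ.filter fun w => G.Adj v w ∧ G.Adj t w).card ≤ τ)
    (hD : ∀ x : W, (univ.filter fun c => H.Adj x c).card ≤ Fintype.card V)
    (hW : 0 < Fintype.card W) (hβ : 0 < β)
    (hx : 5 / 4 * (d * Fintype.card V) ≤ x0 * Fintype.card W)
    (hfin : β ≤ Real.exp (-x0) * Fintype.card W -
      5 * (τ + 2) * (Fintype.card V : ℝ) ^ 2 * d / β - Fintype.card V) :
    ∃ f : V → W, Ok G H univ f := by
  set k : ℝ := (Fintype.card V : ℝ) with hk
  have hk0 : 0 < k := by rw [hk]; exact_mod_cast hV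
  have hdk' : (d : ℝ) ≤ k := by rw [hk]; exact_mod_cast hdk
  have hτ0 : (0 : ℝ) ≤ τ := by positivity
  have hd0 : (0 : ℝ) ≤ d := by positivity
  set s : ℝ := 5 * (τ + 2) * k with hs
  set ρ : ℝ := d + τ * k with hρ
  have hsρ : (4 * τ + 9) * k ≤ s - ρ := by rw [hs, hρ]; nlinarith
  have hpos : 0 < (4 * (τ : ℝ) + 9) * k := by positivity
  have hsρ0 : 0 < s - ρ := by linarith
  have h1 : k / (s - ρ) ≤ 1 / (4 * τ + 9) := by
    rw [div_le_div_iff₀ hsρ0 (by positivity)]
    linarith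
  have h2 : s / (s - ρ) ≤ 5 * (τ + 2) / (4 * τ + 9) := by
    rw [div_le_div_iff₀ hsρ0 (by positivity)]
    have : 0 ≤ 5 * ((τ : ℝ) + 2) := by positivity
    calc s * (4 * τ + 9) = 5 * (τ + 2) * ((4 * τ + 9) * k) := by rw [hs]; ring
      _ ≤ 5 * (τ + 2) * (s - ρ) := mul_le_mul_of_nonneg_left hsρ this
  refine exists_ok (β := β) hβ hW (all_steps (d := d) (τ := τ) (s := s) (ρ := ρ) (D := k)
    (θ := (4 * τ + 9) / (4 * τ + 8)) (x0 := x0) rfl (by linarith) ?_ hdeg hτ ?_ hk0.le ?_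
    (by positivity) ?_ hW hβ ?_)
  · nlinarith
  · intro x
    rw [hk]
    exact_mod_cast hD x
  · have h3 : (1 : ℝ) - 1 / (4 * τ + 9) = (4 * τ + 8) / (4 * τ + 9) := by
      field_simp; ring
    calc (1 : ℝ) = (4 * τ + 9) / (4 * τ + 8) * ((4 * τ + 8) / (4 * τ + 9)) := by
          field_simp
      _ = (4 * τ + 9) / (4 * τ + 8) * (1 - 1 / (4 * τ + 9)) := by rw [h3]
      _ ≤ _ := mul_le_mul_of_nonneg_left (by linarith) (by positivity)
  · refine le_trans ?_ hx
    calc (4 * (τ : ℝ) + 9) / (4 * τ + 8) * (d * (k * (s / (s - ρ)))) ≤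
        (4 * (τ : ℝ) + 9) / (4 * τ + 8) * (d * (k * (5 * (τ + 2) / (4 * τ + 9)))) := by
          gcongr
      _ = 5 / 4 * (d * k) := by
          field_simp
          ring
  · refine hfin.trans (le_of_eq ?_)
    rw [hs]
    ring

/-- at least `k (d + 2) / 2` vertices -/
theorem pack_half {d τ : ℕ} (hdτ : 12000 * (τ + 2) ≤ d)
    (hdk : d ≤ Fintype.card V)
    (hdeg : ∀ v : V, (univ.filter fun w => G.Adj v w).card ≤ d)
    (hτ : ∀ v t : V, G.Adj v t → (univ.filter fun w => G.Adj v w ∧ G.Adj t w).card ≤ τ)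
    (hD : ∀ x : W, (univ.filter fun c => H.Adj x c).card ≤ Fintype.card V)
    (hN : Fintype.card V * d ≤ 2 * Fintype.card W) :
    ∃ f : V → W, Ok G H univ f := by
  have hd0 : 0 < d := by omega
  have hV : 0 < Fintype.card V := by omega
  have hW : 0 < Fintype.card W := by
    have : 0 < Fintype.card V * d := Nat.mul_pos hV hd0
    omega
  have hk0 : (0 : ℝ) < Fintype.card V := by exact_mod_cast hV
  have hd0' : (0 : ℝ) < d := by exact_mod_cast hd0
  have hN' : (Fintype.card V : ℝ) * d ≤ 2 * Fintype.card W := by exact_mod_cast hN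
  have hdτ' : 12000 * ((τ : ℝ) + 2) ≤ d := by exact_mod_cast hdτ
  have hτ0 : (0 : ℝ) ≤ τ := by positivity
  have hexp : (82 / 1000 : ℝ) ≤ Real.exp (-(5 / 2)) := by
    rw [Real.exp_neg, le_inv_comm₀ (by norm_num) (Real.exp_pos _)]
    have h1 : Real.exp (5 / 2) ^ 2 = Real.exp 1 ^ 5 := by
      rw [← Real.exp_nat_mul, ← Real.exp_nat_mul]
      norm_num
    have h2 : Real.exp 1 ^ 5 ≤ 2.7182818286 ^ 5 :=
      pow_le_pow_left₀ (Real.exp_pos _).le Real.exp_one_lt_d9.le 5
    have h3 : Real.exp (5 / 2) ^ 2 ≤ ((82 / 1000 : ℝ)⁻¹) ^ 2 := by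
      rw [h1]
      exact h2.trans (by norm_num)
    exact le_of_sq_le_sq h3 (by norm_num)
  refine pack_num (d := d) (τ := τ) (x0 := 5 / 2) (β := d * Fintype.card V / 50) hV hdk hdeg hτ
    hD hW (by positivity) (by linarith) ?_
  have h1 : 5 * ((τ : ℝ) + 2) * (Fintype.card V : ℝ) ^ 2 * d / (d * Fintype.card V / 50) =
      250 * (τ + 2) * Fintype.card V := by
    field_simp
    ring
  rw [h1]
  have h2 : 41 / 1000 * (Fintype.card V * d : ℝ) ≤ Real.exp (-(5 / 2)) * Fintype.card W := by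
    have : (0 : ℝ) ≤ Fintype.card W := by positivity
    nlinarith
  have h3 : 252 * ((τ : ℝ) + 2) * Fintype.card V ≤ 21 / 1000 * (Fintype.card V * d) := by
    nlinarith
  nlinarith

/-- at least `5 k d / log (d / (τ + 2))` vertices -/
theorem pack_log {d τ : ℕ} (hdτ : 12000 * (τ + 2) ≤ d)
    (hdk : d ≤ Fintype.card V)
    (hdeg : ∀ v : V, (univ.filter fun w => G.Adj v w).card ≤ d)
    (hτ : ∀ v t : V, G.Adj v t → (univ.filter fun w => G.Adj v w ∧ G.Adj t w).card ≤ τ)
    (hD : ∀ x : W, (univ.filter fun c => H.Adj x c).card ≤ Fintype.card V)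
    (hN : 5 * (Fintype.card V : ℝ) * d / Real.log (d / (τ + 2)) ≤ Fintype.card W) :
    ∃ f : V → W, Ok G H univ f := by
  have hd0 : 0 < d := by omega
  have hV : 0 < Fintype.card V := by omega
  have hk0 : (0 : ℝ) < Fintype.card V := by exact_mod_cast hV
  have hd0' : (0 : ℝ) < d := by exact_mod_cast hd0
  have hdτ' : 12000 * ((τ : ℝ) + 2) ≤ d := by exact_mod_cast hdτ
  have hτ0 : (0 : ℝ) ≤ τ := by positivity
  set k : ℝ := (Fintype.card V : ℝ) with hk
  set a : ℝ := (τ : ℝ) + 2 with ha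
  have ha0 : 2 ≤ a := by rw [ha]; linarith
  have hr : 12000 ≤ (d : ℝ) / a := by
    rw [le_div_iff₀ (by linarith)]; exact hdτ'
  set L : ℝ := Real.log (d / a) with hL
  set t : ℝ := Real.exp (L / 4) with ht
  have ht4 : t ^ 4 = d / a := by
    rw [ht, ← Real.exp_nat_mul, hL]
    push_cast
    rw [mul_div_cancel₀ _ (by norm_num : (4 : ℝ) ≠ 0), Real.exp_log (by linarith)]
  have ht0 : 0 < t := Real.exp_pos _
  have ht10 : 10 ≤ t := by
    by_contra h
    push Not at h
    have : t ^ 4 ≤ 10 ^ 4 := pow_le_pow_left₀ ht0.le h.le 4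
    rw [ht4] at this
    linarith
  have hlt : Real.log t = L / 4 := by rw [ht, Real.log_exp]
  have hlog : Real.log t ≤ t / 8 + 1.0795 := by
    have h1 := Real.log_le_sub_one_of_pos (show 0 < t / 8 by positivity)
    have h2 : Real.log (t / 8) = Real.log t - Real.log 8 := Real.log_div ht0.ne' (by norm_num)
    have h3 : Real.log 8 = 3 * Real.log 2 := by
      rw [show (8 : ℝ) = 2 ^ 3 by norm_num, Real.log_pow]; norm_num
    have h4 := Real.log_two_lt_d9
    rw [h2, h3] at h1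
    linarith
  have hlog0 : 0 < Real.log t := Real.log_pos (by linarith)
  have hL0 : 0 < L := by linarith
  have hd : (d : ℝ) = a * t ^ 4 := by
    rw [ht4]; field_simp
  have hN2 : 5 * k * d ≤ Fintype.card W * L := by
    rwa [div_le_iff₀ hL0] at hN
  have hW' : (0 : ℝ) < Fintype.card W := by
    have h1 : 0 < 5 * k * d := by positivity
    by_contra h
    push Not at h
    have : (Fintype.card W : ℝ) * L ≤ 0 := mul_nonpos_of_nonpos_of_nonneg h hL0.le
    linarith
  have hW : 0 < Fintype.card W := by exact_mod_cast hW'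
  refine pack_num (d := d) (τ := τ) (x0 := Real.log t) (β := 9 / 4 * (k * a * t ^ 2)) hV hdk
    hdeg hτ hD hW (by positivity) ?_ ?_
  · rw [hlt]
    linarith
  · rw [Real.exp_neg, Real.exp_log ht0, ← ha, ← hk]
    have h1 : 5 * a * k ^ 2 * (d : ℝ) / (9 / 4 * (k * a * t ^ 2)) = 20 / 9 * (k * a * t ^ 2) := by
      rw [hd]
      field_simp
      ring
    rw [h1]
    have h2 : 5 / 4 * (k * a * t ^ 4) ≤ Fintype.card W * Real.log t := by
      rw [hlt]
      rw [hd] at hN2
      linarith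
    have h3 : 5 / 4 * (k * a * t ^ 3) ≤ t⁻¹ * Fintype.card W * Real.log t := by
      calc 5 / 4 * (k * a * t ^ 3) = t⁻¹ * (5 / 4 * (k * a * t ^ 4)) := by
            field_simp
        _ ≤ t⁻¹ * (Fintype.card W * Real.log t) :=
            mul_le_mul_of_nonneg_left h2 (by positivity)
        _ = _ := by ring
    -- `(9/4 + 20/9) k a t² + k ≤ 4.48 k a t²` and `4.48 log t ≤ 5/4 t`
    have h4 : 4.48 * Real.log t ≤ 5 / 4 * t := by linarith
    have h5 : (9 / 4 + 20 / 9) * (k * a * t ^ 2) + k ≤ 4.48 * (k * a * t ^ 2) := by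
      have h6 : 200 ≤ a * t ^ 2 := by nlinarith
      have h7 : 200 * k ≤ k * a * t ^ 2 := by nlinarith
      nlinarith
    have h8 : 4.48 * (k * a * t ^ 2) * Real.log t ≤ t⁻¹ * Fintype.card W * Real.log t := by
      refine le_trans ?_ h3
      have h9 : 0 ≤ k * a * t ^ 2 := by positivity
      nlinarith [mul_le_mul_of_nonneg_left h4 h9]
    have h10 : 4.48 * (k * a * t ^ 2) ≤ t⁻¹ * Fintype.card W := le_of_mul_le_mul_right h8 hlog0
    linarith

end Pool.Agent.H8.SD
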