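import Pool.Agent.H8.SD.Step2

/-! # All graphs of large maximal degree -/

set_option autoImplicit false
set_option linter.unusedSectionVars false

noncomputable section

namespace Pool.Agent.H8.SD

open Finset Function
open scoped Classical

variable {V W : Type} [Fintype V] [Fintype W]
variable {G : SimpleGraph V} {H : SimpleGraph W}

theorem all_steps2 {p ρ M s0 s1 qm k θ x0 Q β : ℝ} {d : ℕ} (hp : 0 < p) (hp1 : p ≤ 1)
    (hM : 0 < M) (hk : 0 < k) (hρ : ρ = M * (k + 1))
    (hdeg : ∀ v : V, (univ.filter fun w => G.Adj v w).card ≤ d)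
    (hD : ∀ x : W, ((univ.filter fun c => H.Adj x c).card : ℝ) ≤ k)
    (htri : ∀ a b c : W, H.Adj a b → H.Adj b c → H.Adj a c → False)
    (hs0 : 2 * (ρ + k) ≤ s0) (hqm : 0 < qm) (hqm1 : qm < 1) (hs01 : s0 ≤ s1)
    (hs1 : k / (qm * p) + k + ρ ≤ s1) (hθ : 1 ≤ θ * (1 - qm)) (hθ0 : 0 ≤ θ) (hx0 : 0 ≤ x0)
    (hQ : 2 / p * (k + k * d / s0) ≤ Q) (hW : 0 < Fintype.card W) (hβ : 0 < β)
    (hfin : β + Fintype.card V ≤ Real.exp (-x0) * ((Fintype.card W * (1 + x0) -
        θ * (qm * (k * d)) -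
        (1 + x0) * (k * d / M) - (θ * Q + (1 + x0) * Fintype.card W / M) * (p * d)) -
      ((1 + x0) * (Fintype.card W * p)) * (d * (s0 / β)) -
      ((1 + x0) * (k + Q * p / qm)) * (d * (s1 / β)))) :
    ∀ (n : ℕ) (S : Finset V), S.card = n → ∀ v : V, v ∉ S →
    β * cnt G H S ≤ ∑ f : V → W, (if Ok G H S f then (1 : ℝ) else 0) * ac G H S v f := by
  intro n
  induction n with
  | zero =>
    intro S hS v _
    refine step2 hp hp1 hM hk hρ hdeg hD htri hs0 hqm hqm1 hs01 hs1 hθ hθ0 hx0 hQ hW hβ hfin ?_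
    intro u hu
    rw [card_eq_zero.1 hS] at hu
    exact absurd hu (notMem_empty u)
  | succ n ih =>
    intro S hS v _
    refine step2 hp hp1 hM hk hρ hdeg hD htri hs0 hqm hqm1 hs01 hs1 hθ hθ0 hx0 hQ hW hβ hfin ?_
    intro u hu
    exact ih (S.erase u) (by rw [card_erase_of_mem hu, hS]; rfl) u (notMem_erase u S)

theorem exp_neg_six : (1 / 404 : ℝ) ≤ Real.exp (-6) := by
  rw [Real.exp_neg, ← one_div, one_div_le_one_div (by norm_num) (Real.exp_pos _)]
  have h1 : Real.exp 6 = Real.exp 1 ^ 6 := by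
    rw [← Real.exp_nat_mul]
    norm_num
  have h2 : Real.exp 1 ^ 6 ≤ 2.7182818286 ^ 6 :=
    pow_le_pow_left₀ (Real.exp_pos _).le Real.exp_one_lt_d9.le 6
  rw [h1]
  exact h2.trans (by norm_num)

theorem pack_all {d : ℕ} (hd : 10 ^ 20 ≤ d) (hdk : d ≤ Fintype.card V)
    (hdeg : ∀ v : V, (univ.filter fun w => G.Adj v w).card ≤ d)
    (hD : ∀ x : W, (univ.filter fun c => H.Adj x c).card ≤ Fintype.card V)
    (htri : ∀ a b c : W, H.Adj a b → H.Adj b c → H.Adj a c → False)
    (hN : Fintype.card V * d ≤ 2 * Fintype.card W) :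
    ∃ f : V → W, Ok G H univ f := by
  have hd0 : 0 < d := by omega
  have hV : 0 < Fintype.card V := by omega
  have hW : 0 < Fintype.card W := by
    have : 0 < Fintype.card V * d := Nat.mul_pos hV hd0
    omega
  set k : ℝ := (Fintype.card V : ℝ) with hk
  set N : ℝ := (Fintype.card W : ℝ) with hNdef
  set r : ℝ := Real.sqrt d with hr
  have hr2 : r ^ 2 = d := Real.sq_sqrt (by positivity)
  have hr10 : 10 ^ 10 ≤ r := by
    rw [hr]
    apply Real.le_sqrt_of_sq_le
    have : ((10 ^ 20 : ℕ) : ℝ) ≤ d := by exact_mod_cast hd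
    push_cast at this
    norm_num at this ⊢
    exact this
  have hr0 : 0 < r := by linarith
  have hkr : r ^ 2 ≤ k := by rw [hr2, hk]; exact_mod_cast hdk
  have hk0 : 0 < k := by nlinarith
  have hk200 : 200 ≤ k := by nlinarith
  have hNr : k * r ^ 2 ≤ 2 * N := by rw [hr2, hk, hNdef]; exact_mod_cast hN
  have hN0 : 0 < N := by rw [hNdef]; exact_mod_cast hW
  have hrk : 10 ^ 10 * k ≤ r * k := mul_le_mul_of_nonneg_right hr10 hk0.le
  have hdr : (d : ℝ) = r ^ 2 := hr2.symm
  refine exists_ok (β := 11 / 10000 * (r ^ 2 * k)) (by positivity) hW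
    (all_steps2 (d := d) (p := 37 / 50000 / r) (M := 3 / 200 * r)
      (ρ := 3 / 200 * r * (k + 1)) (s0 := 3 / 40 * (r * k)) (s1 := 10812 * (r * k)) (qm := 1 / 8)
      (k := k) (θ := 8 / 7) (x0 := 6) (Q := 101 / 50 / (37 / 50000) * (r * k))
      (by positivity) ?_ (by positivity) hk0 rfl hdeg ?_ htri ?_ (by norm_num) (by norm_num)
      ?_ ?_ (by norm_num) (by norm_num) (by norm_num) ?_ hW (by positivity) ?_)
  · rw [div_le_one hr0]
    linarith
  · intro x
    rw [hk]
    exact_mod_cast hD x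
  · nlinarith
  · nlinarith
  · have e1 : k / (1 / 8 * (37 / 50000 / r)) = 400000 / 37 * (r * k) := by
      field_simp
      ring
    rw [e1]
    nlinarith
  · have e1 : 2 / (37 / 50000 / r) * (k + k * d / (3 / 40 * (r * k))) =
        100000 / 37 * (r * k) + 100000 / 37 * (40 / 3) * r ^ 2 := by
      rw [hdr]
      field_simp
      norm_num
    rw [e1]
    nlinarith
  · rw [hdr, ← hk]
    have e1 : k * r ^ 2 / (3 / 200 * r) = 200 / 3 * (r * k) := by
      field_simp
    have e2 : (8 / 7 * (101 / 50 / (37 / 50000) * (r * k)) + (1 + 6) * N / (3 / 200 * r)) *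
        (37 / 50000 / r * r ^ 2) = 8 / 7 * (101 / 50) * (r ^ 2 * k) +
          7 * (37 / 50000 * (200 / 3)) * N := by
      field_simp
      ring
    have e3 : (1 + 6) * (N * (37 / 50000 / r)) *
        (r ^ 2 * (3 / 40 * (r * k) / (11 / 10000 * (r ^ 2 * k)))) =
        7 * (37 / 50000 * (3 / 40) / (11 / 10000)) * N := by
      field_simp
      ring
    have e4 : (1 + 6) * (k + 101 / 50 / (37 / 50000) * (r * k) * (37 / 50000 / r) / (1 / 8)) *
        (r ^ 2 * (10812 * (r * k) / (11 / 10000 * (r ^ 2 * k)))) =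
        7 * (1 + 8 * (101 / 50)) * (10812 / (11 / 10000)) * (r * k) := by
      field_simp
      ring
    rw [e1, e2, e3, e4]
    have h1 : r * k ≤ 1 / 10 ^ 10 * (r ^ 2 * k) := by
      have : 10 ^ 10 * (r * k) ≤ r * (r * k) :=
        mul_le_mul_of_nonneg_right hr10 (by positivity)
      nlinarith
    have h2 : (9 / 10 : ℝ) * N ≤ N * (1 + 6) - 8 / 7 * (1 / 8 * (k * r ^ 2)) -
        (1 + 6) * (200 / 3 * (r * k)) - (8 / 7 * (101 / 50) * (r ^ 2 * k) +
          7 * (37 / 50000 * (200 / 3)) * N) -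
        7 * (37 / 50000 * (3 / 40) / (11 / 10000)) * N -
        7 * (1 + 8 * (101 / 50)) * (10812 / (11 / 10000)) * (r * k) := by
      nlinarith
    have h3 := exp_neg_six
    have h4 : 1 / 404 * ((9 / 10 : ℝ) * N) ≤ Real.exp (-6) * (N * (1 + 6) -
        8 / 7 * (1 / 8 * (k * r ^ 2)) -
        (1 + 6) * (200 / 3 * (r * k)) - (8 / 7 * (101 / 50) * (r ^ 2 * k) +
          7 * (37 / 50000 * (200 / 3)) * N) -
        7 * (37 / 50000 * (3 / 40) / (11 / 10000)) * N -
        7 * (1 + 8 * (101 / 50)) * (10812 / (11 / 10000)) * (r * k)) :=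
      mul_le_mul h3 h2 (by positivity) (Real.exp_pos _).le
    refine le_trans ?_ h4
    have h5 : 10 ^ 20 ≤ r ^ 2 := by nlinarith
    nlinarith

end Pool.Agent.H8.SD
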