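import Pool.Agent.H8.SD.Pack2

/-! # The bound with a logarithm for all graphs of large maximal degree -/

set_option autoImplicit false
set_option linter.unusedSectionVars false

noncomputable section

namespace Pool.Agent.H8.SD

open Finset Function
open scoped Classical

variable {V W : Type} [Fintype V] [Fintype W]
variable {G : SimpleGraph V} {H : SimpleGraph W}

theorem log_ge {d : ℕ} (hd : 10 ^ 50 ≤ d) : 115 ≤ Real.log d := by
  rw [Real.le_log_iff_exp_le (by
    have : 0 < d := by omega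
    exact_mod_cast this)]
  have h1 : Real.exp 115 = Real.exp 1 ^ 115 := by
    rw [← Real.exp_nat_mul]
    norm_num
  have h2 : Real.exp 1 ^ 115 ≤ 2.7182818286 ^ 115 :=
    pow_le_pow_left₀ (Real.exp_pos _).le Real.exp_one_lt_d9.le 115
  have h3 : ((10 ^ 50 : ℕ) : ℝ) ≤ d := by exact_mod_cast hd
  rw [h1]
  refine h2.trans (le_trans ?_ h3)
  push_cast
  norm_num

theorem exp14 : (1200000 : ℝ) ≤ Real.exp 14 := by
  have h1 : Real.exp 14 = Real.exp 1 ^ 14 := by
    rw [← Real.exp_nat_mul]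
    norm_num
  have h2 : (2.7182818283 : ℝ) ^ 14 ≤ Real.exp 1 ^ 14 :=
    pow_le_pow_left₀ (by norm_num) Real.exp_one_gt_d9.le 14
  rw [h1]
  exact le_trans (by norm_num) h2

theorem w_ge {l : ℝ} (hl : 115 ≤ l) : 6500 * l ≤ Real.exp (l / 8) := by
  have h1 : Real.exp (l / 8) = Real.exp 14 * Real.exp (l / 8 - 14) := by
    rw [← Real.exp_add]
    congr 1
    ring
  have h2 := Real.add_one_le_exp (l / 8 - 14)
  have h3 := exp14
  rw [h1]
  have h4 : 0 ≤ l / 8 - 14 + 1 := by linarith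
  calc 6500 * l ≤ 1200000 * (l / 8 - 14 + 1) := by linarith
    _ ≤ Real.exp 14 * Real.exp (l / 8 - 14) := mul_le_mul h3 h2 h4 (Real.exp_pos _).le

theorem exp20 {l : ℝ} (hl : 115 ≤ l) : 25 / 8 * (l / 20) ≤ Real.exp (l / 20) := by
  have h := Real.quadratic_le_exp_of_nonneg (x := l / 20) (by positivity)
  have h1 : (115 / 20 : ℝ) ≤ l / 20 := by linarith
  nlinarith

theorem pack_log_all {d : ℕ} (hd : 10 ^ 50 ≤ d) (hdk : d ≤ Fintype.card V)
    (hdeg : ∀ v : V, (univ.filter fun w => G.Adj v w).card ≤ d)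
    (hD : ∀ x : W, (univ.filter fun c => H.Adj x c).card ≤ Fintype.card V)
    (htri : ∀ a b c : W, H.Adj a b → H.Adj b c → H.Adj a c → False)
    (hN : 16 * (Fintype.card V : ℝ) * d / Real.log d ≤ Fintype.card W) :
    ∃ f : V → W, Ok G H univ f := by
  have hd0 : 0 < d := by omega
  have hV : 0 < Fintype.card V := by omega
  set k : ℝ := (Fintype.card V : ℝ) with hk
  set N : ℝ := (Fintype.card W : ℝ) with hNdef
  set l : ℝ := Real.log d with hl
  have hl115 : 115 ≤ l := log_ge hd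
  have hl0 : 0 < l := by linarith
  set w : ℝ := Real.exp (l / 8) with hw
  have hw0 : 0 < w := Real.exp_pos _
  have hwl : 6500 * l ≤ w := w_ge hl115
  have hw8 : w ^ 8 = d := by
    rw [hw, ← Real.exp_nat_mul]
    push_cast
    rw [mul_div_cancel₀ _ (by norm_num : (8 : ℝ) ≠ 0), hl, Real.exp_log (by exact_mod_cast hd0)]
  have hw1 : 700000 ≤ w := by linarith
  have hkw : w ^ 8 ≤ k := by rw [hw8, hk]; exact_mod_cast hdk
  have hw81 : 1 ≤ w ^ 8 := one_le_pow₀ (by linarith)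
  have hk0 : 0 < k := by linarith
  have hk1 : 1 ≤ k := by linarith
  have hdw : (d : ℝ) = w ^ 8 := hw8.symm
  have hNl : 16 * (k * w ^ 8) ≤ N * l := by
    rw [hdw, div_le_iff₀ hl0] at hN
    linarith
  have hN0 : 0 < N := by
    have h1 : 0 < 16 * (k * w ^ 8) := by positivity
    by_contra h
    push Not at h
    have : N * l ≤ 0 := mul_nonpos_of_nonpos_of_nonneg h hl0.le
    linarith
  have hW : 0 < Fintype.card W := by
    rw [hNdef] at hN0
    exact_mod_cast hN0
  have hw3 : 1000 ≤ w ^ 3 := by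
    calc (1000 : ℝ) ≤ 700000 ^ 3 := by norm_num
      _ ≤ w ^ 3 := pow_le_pow_left₀ (by norm_num) hw1 3
  have hwk : 1000 * k ≤ w ^ 3 * k := mul_le_mul_of_nonneg_right hw3 hk0.le
  have hw35 : w ^ 3 * k ≤ 1 / 1000 * (w ^ 5 * k) := by
    have h1 : 1000 ≤ w ^ 2 := by
      calc (1000 : ℝ) ≤ 700000 ^ 2 := by norm_num
        _ ≤ w ^ 2 := pow_le_pow_left₀ (by norm_num) hw1 2
    have h2 : 0 ≤ w ^ 3 * k := by positivity
    have h3 := mul_le_mul_of_nonneg_right h1 h2
    have h4 : w ^ 2 * (w ^ 3 * k) = w ^ 5 * k := by ring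
    linarith
  refine exists_ok (β := w ^ 6 * k) (by positivity) hW
    (all_steps2 (d := d) (p := 3 / 200 / w ^ 5) (M := w ^ 3)
      (ρ := w ^ 3 * (k + 1)) (s0 := 5 * (w ^ 3 * k)) (s1 := 541 * (w ^ 5 * k)) (qm := 1 / 8)
      (k := k) (θ := 8 / 7) (x0 := l / 5) (Q := 101 / 50 / (3 / 200) * (w ^ 5 * k))
      (by positivity) ?_ (by positivity) hk0 rfl hdeg ?_ htri ?_ (by norm_num) (by norm_num)
      ?_ ?_ (by norm_num) (by norm_num) (by positivity) ?_ hW (by positivity) ?_)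
  · rw [div_le_one (by positivity)]
    have : 1 ≤ w ^ 5 := one_le_pow₀ (by linarith)
    linarith
  · intro x
    rw [hk]
    exact_mod_cast hD x
  · have : w ^ 3 ≤ 1 / 10 * (w ^ 3 * k) := by
      have h1 : (10 : ℝ) ≤ k := by
        have : (700000 : ℝ) ^ 8 ≤ w ^ 8 := pow_le_pow_left₀ (by norm_num) hw1 8
        have h2 : (10 : ℝ) ≤ 700000 ^ 8 := by norm_num
        linarith
      have h2 : 0 ≤ w ^ 3 := by positivity
      nlinarith
    nlinarith
  · nlinarith
  · have e1 : k / (1 / 8 * (3 / 200 / w ^ 5)) = 1600 / 3 * (w ^ 5 * k) := by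
      field_simp
      ring
    rw [e1]
    have : w ^ 3 ≤ w ^ 3 * k := by
      have h2 : 0 ≤ w ^ 3 := by positivity
      nlinarith
    nlinarith
  · have e1 : 2 / (3 / 200 / w ^ 5) * (k + k * d / (5 * (w ^ 3 * k))) =
        400 / 3 * (w ^ 5 * k) + 400 / 3 * (1 / 5) * w ^ 10 := by
      rw [hdw]
      field_simp
      ring
    rw [e1]
    have h1 : w ^ 10 ≤ 1 / 1000 * (w ^ 5 * k) := by
      have h2 : w ^ 5 * w ^ 8 ≤ w ^ 5 * k := mul_le_mul_of_nonneg_left hkw (by positivity)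
      have h3 : w ^ 5 * w ^ 8 = w ^ 3 * w ^ 10 := by ring
      have h4 : 1000 * w ^ 10 ≤ w ^ 3 * w ^ 10 :=
        mul_le_mul_of_nonneg_right hw3 (by positivity)
      linarith
    nlinarith
  · rw [hdw, ← hk]
    have e1 : k * w ^ 8 / w ^ 3 = w ^ 5 * k := by
      field_simp
    have e2 : (8 / 7 * (101 / 50 / (3 / 200) * (w ^ 5 * k)) + (1 + l / 5) * N / w ^ 3) *
        (3 / 200 / w ^ 5 * w ^ 8) = 8 / 7 * (101 / 50) * (w ^ 8 * k) +
          (3 / 200) * ((1 + l / 5) * N) := by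
      field_simp
    have e3 : (1 + l / 5) * (N * (3 / 200 / w ^ 5)) *
        (w ^ 8 * (5 * (w ^ 3 * k) / (w ^ 6 * k))) =
        (3 / 40) * ((1 + l / 5) * N) := by
      field_simp
      try ring
    have e4 : (1 + l / 5) * (k + 101 / 50 / (3 / 200) * (w ^ 5 * k) * (3 / 200 / w ^ 5) / (1 / 8)) *
        (w ^ 8 * (541 * (w ^ 5 * k) / (w ^ 6 * k))) =
        (1 + 8 * (101 / 50)) * 541 * ((1 + l / 5) * (w ^ 7 * k)) := by
      field_simp
      try ring
    rw [e1, e2, e3, e4]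
    have hL : 0 < 1 + l / 5 := by positivity
    -- `w^7 k` against `N`
    have h7 : w ^ 7 * k ≤ 1 / 104000 * N := by
      have h1 : 6500 * l * (w ^ 7 * k) ≤ w * (w ^ 7 * k) :=
        mul_le_mul_of_nonneg_right hwl (by positivity)
      have h2 : w * (w ^ 7 * k) = k * w ^ 8 := by ring
      have h3 : l * (104000 * (w ^ 7 * k)) ≤ l * N := by linarith
      have h4 := le_of_mul_le_mul_left h3 hl0
      linarith
    have h5 : w ^ 5 * k ≤ 1 / 1000 * (w ^ 7 * k) := by
      have h1 : 1000 ≤ w ^ 2 := by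
        calc (1000 : ℝ) ≤ 700000 ^ 2 := by norm_num
          _ ≤ w ^ 2 := pow_le_pow_left₀ (by norm_num) hw1 2
      have h2 : 0 ≤ w ^ 5 * k := by positivity
      have h3 := mul_le_mul_of_nonneg_right h1 h2
      have h4 : w ^ 2 * (w ^ 5 * k) = w ^ 7 * k := by ring
      linarith
    have h5' : w ^ 5 * k ≤ 1 / 1000000 * N := by linarith
    have g1 : (1 + l / 5) * (w ^ 7 * k) ≤ (1 + l / 5) * (1 / 104000 * N) :=
      mul_le_mul_of_nonneg_left h7 hL.le
    have g2 : (1 + l / 5) * (w ^ 5 * k) ≤ (1 + l / 5) * (1 / 1000000 * N) :=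
      mul_le_mul_of_nonneg_left h5' hL.le
    have g3 : w ^ 8 * k ≤ 1 / 16 * (N * l) := by linarith
    have h2 : (4 / 5 : ℝ) * N ≤ N * (1 + l / 5) - 8 / 7 * (1 / 8 * (k * w ^ 8)) -
        (1 + l / 5) * (w ^ 5 * k) - (8 / 7 * (101 / 50) * (w ^ 8 * k) +
          3 / 200 * ((1 + l / 5) * N)) -
        3 / 40 * ((1 + l / 5) * N) -
        (1 + 8 * (101 / 50)) * 541 * ((1 + l / 5) * (w ^ 7 * k)) := by
      have hNl0 : 0 ≤ N * l := by positivity
      linarith
    have hexp : Real.exp (-(l / 5)) = Real.exp (l / 20) / w ^ 2 := by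
      rw [hw, ← Real.exp_nat_mul, ← Real.exp_sub]
      congr 1
      push_cast
      ring
    have hx : 25 / 8 * (l / 20) ≤ Real.exp (l / 20) := exp20 hl115
    have h3 : 2 * (w ^ 6 * k) ≤ Real.exp (-(l / 5)) * (4 / 5 * N) := by
      rw [hexp, div_mul_eq_mul_div, le_div_iff₀ (by positivity)]
      have h4 : 25 / 8 * (l / 20) * (4 / 5 * N) ≤ Real.exp (l / 20) * (4 / 5 * N) :=
        mul_le_mul_of_nonneg_right hx (by positivity)
      have h6 : 2 * (w ^ 6 * k) * w ^ 2 = 2 * (k * w ^ 8) := by ring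
      rw [h6]
      linarith
    have h4 : Real.exp (-(l / 5)) * (4 / 5 * N) ≤ Real.exp (-(l / 5)) * (N * (1 + l / 5) -
        8 / 7 * (1 / 8 * (k * w ^ 8)) -
        (1 + l / 5) * (w ^ 5 * k) - (8 / 7 * (101 / 50) * (w ^ 8 * k) +
          3 / 200 * ((1 + l / 5) * N)) -
        3 / 40 * ((1 + l / 5) * N) -
        (1 + 8 * (101 / 50)) * 541 * ((1 + l / 5) * (w ^ 7 * k))) :=
      mul_le_mul_of_nonneg_left h2 (Real.exp_pos _).le
    refine le_trans ?_ h4
    refine le_trans ?_ h3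
    have h8 : 1 ≤ w ^ 6 := one_le_pow₀ (by linarith)
    have h9 : 1 * k ≤ w ^ 6 * k := mul_le_mul_of_nonneg_right h8 hk0.le
    linarith

end Pool.Agent.H8.SD
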