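import Pool.Agent.H8.SD.Coin

/-! # The sequential argument with hidden vertices -/

set_option autoImplicit false
set_option linter.unusedSectionVars false

noncomputable section

namespace Pool.Agent.H8.SD

open Finset Function
open scoped Classical

variable {V W : Type} [Fintype V] [Fintype W]
variable {G : SimpleGraph V} {H : SimpleGraph W}

theorem swapg (t : V) (w : (V → W) → ℝ) (hw : ∀ f c, w (update f t c) = w f)
    (g : (V → W) → W → ℝ) (hg : ∀ f c c', g (update f t c) c' = g f c') :
    (Fintype.card W : ℝ) * ∑ f, w f * g f (f t) = ∑ f, w f * ∑ c, g f c := by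
  have h1 : ∑ f : V → W, w f * ∑ c, g f c =
      ∑ p : (V → W) × W, w p.1 * g p.1 p.2 := by
    rw [Fintype.sum_prod_type]
    exact sum_congr rfl fun f _ => by rw [mul_sum]
  have h2 : ∑ p : (V → W) × W, w p.1 * g p.1 p.2 =
      ∑ p : (V → W) × W, w p.1 * g p.1 (p.1 t) := by
    let φ : (V → W) × W → (V → W) × W := fun p => (update p.1 t p.2, p.1 t)
    have hφ : Function.Involutive φ := by
      intro p
      simp [φ]
    refine Fintype.sum_equiv hφ.toPerm _ _ fun p => ?_
    show _ = w (update p.1 t p.2) * g (update p.1 t p.2) ((update p.1 t p.2) t)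
    simp only [hg, hw, update_self]
  rw [h1, h2, Fintype.sum_prod_type, mul_sum]
  refine sum_congr rfl fun f _ => ?_
  simp only [sum_const, card_univ, nsmul_eq_mul]

/-- no vertex of `B` goes to a neighbour of `y` -/
def NA (H : SimpleGraph W) (y : W) (B : Finset V) (f : V → W) : Prop :=
  ∀ u ∈ B, ¬ H.Adj y (f u)

/-- number of neighbours of `y` in the list of `t` -/
def bc (G : SimpleGraph V) (H : SimpleGraph W) (O : Finset V) (y : W) (t : V) (f : V → W) : ℝ :=
  ((univ.filter fun c => Av G H O t f c ∧ H.Adj y c).card : ℝ)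

theorem bc_nonneg (O : Finset V) (y : W) (t : V) (f : V → W) : 0 ≤ bc G H O y t f := by
  unfold bc; positivity

theorem bc_update {O : Finset V} {t' : V} (ht : t' ∉ O) (y : W) (t : V) (f : V → W) (c : W) :
    bc G H O y t (update f t' c) = bc G H O y t f := by
  unfold bc
  have : (univ.filter fun c' => Av G H O t (update f t' c) c' ∧ H.Adj y c') =
      univ.filter fun c' => Av G H O t f c' ∧ H.Adj y c' := by
    ext c'
    simp only [mem_filter, mem_univ, true_and]
    rw [av_congr (fun x hx _ => update_ne ht f c x hx) c']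
  rw [this]

theorem bc_le {k : ℝ} (hD : ∀ x : W, ((univ.filter fun c => H.Adj x c).card : ℝ) ≤ k)
    (O : Finset V) (y : W) (t : V) (f : V → W) : bc G H O y t f ≤ k := by
  refine le_trans ?_ (hD y)
  unfold bc
  refine Nat.cast_le.2 (card_le_card fun c hc => ?_)
  obtain ⟨_, h⟩ := (mem_filter.1 hc).2
  exact mem_filter.2 ⟨mem_univ _, h⟩

/-- the loss for the vertex `t` -/
def qq (G : SimpleGraph V) (H : SimpleGraph W) (p ρ : ℝ) (O : Finset V) (y : W) (t : V)
    (f : V → W) : ℝ := bc G H O y t f / (p * (ac G H O t f - bc G H O y t f - ρ))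

/-- the good situation -/
def Gd (G : SimpleGraph V) (H : SimpleGraph W) (p ρ M s0 qm : ℝ) (S T : Finset V) (y : W)
    (f : V → W) : Prop :=
  (T.card : ℝ) ≤ M ∧ ∀ t ∈ T, s0 < ac G H (S \ T) t f ∧ qq G H p ρ (S \ T) y t f ≤ qm

theorem qq_update {p ρ : ℝ} {O : Finset V} {t' : V} (ht : t' ∉ O) (y : W) (t : V) (f : V → W)
    (c : W) : qq G H p ρ O y t (update f t' c) = qq G H p ρ O y t f := by
  unfold qq
  rw [bc_update ht, ac_update ht]

theorem gd_update {p ρ M s0 qm : ℝ} {S T : Finset V} {t' : V} (ht : t' ∈ T) (y : W) (f : V → W)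
    (c : W) : Gd G H p ρ M s0 qm S T y (update f t' c) ↔ Gd G H p ρ M s0 qm S T y f := by
  have h : t' ∉ S \ T := fun h => (mem_sdiff.1 h).2 ht
  unfold Gd
  simp only [ac_update h, qq_update h]

/-- long lists stay long -/
theorem non_ge {k ρ M : ℝ} (hD : ∀ x : W, ((univ.filter fun c => H.Adj x c).card : ℝ) ≤ k)
    (hk : 0 ≤ k) (hρ : ρ = M * (k + 1)) {S T : Finset V} (hTM : (T.card : ℝ) ≤ M) {t : V}
    (y : W) (f : V → W) :
    ac G H (S \ T) t f - bc G H (S \ T) y t f - ρ ≤
      ((univ.filter fun c => Av G H (S.erase t) t f c ∧ ¬ H.Adj y c).card : ℝ) := by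
  have hsub : (univ.filter fun c => Av G H (S \ T) t f c ∧ ¬ H.Adj y c) ⊆
      (univ.filter fun c => Av G H (S.erase t) t f c ∧ ¬ H.Adj y c) ∪
      ((T.image f) ∪ T.biUnion (fun w => univ.filter fun c => H.Adj (f w) c)) := by
    intro c hc
    obtain ⟨hc1, hc2⟩ := (mem_filter.1 hc).2
    by_cases h : Av G H (S.erase t) t f c
    · exact mem_union_left _ (mem_filter.2 ⟨mem_univ _, h, hc2⟩)
    · refine mem_union_right _ ?_
      unfold Av at h
      push Not at h
      obtain ⟨w, hw, hne, h2⟩ := h
      have hwS : w ∈ S := mem_of_mem_erase hw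
      by_cases hwT : w ∈ T
      · by_cases hcw : c = f w
        · exact mem_union_left _ (mem_image.2 ⟨w, hwT, hcw.symm⟩)
        · exact mem_union_right _ (mem_biUnion.2 ⟨w, hwT,
            mem_filter.2 ⟨mem_univ _, (h2 hcw).2.symm⟩⟩)
      · have h3 := hc1 w (mem_sdiff.2 ⟨hwS, hwT⟩) hne
        obtain ⟨h4, h5⟩ := h2 h3.1
        exact absurd h5 (h3.2 h4)
  have h1 := (card_le_card hsub).trans ((card_union_le _ _).trans
    (Nat.add_le_add_left (card_union_le _ _) _))
  have h2 : ((univ.filter fun c => Av G H (S \ T) t f c ∧ ¬ H.Adj y c).card : ℝ) ≤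
      ((univ.filter fun c => Av G H (S.erase t) t f c ∧ ¬ H.Adj y c).card : ℝ) +
      ((T.image f).card + ((T.biUnion (fun w => univ.filter fun c => H.Adj (f w) c)).card : ℝ)) := by
    exact_mod_cast h1
  have h3 : ((T.image f).card : ℝ) ≤ T.card := by exact_mod_cast card_image_le
  have h4 : ((T.biUnion (fun w => univ.filter fun c => H.Adj (f w) c)).card : ℝ) ≤
      T.card * k := by
    calc ((T.biUnion (fun w => univ.filter fun c => H.Adj (f w) c)).card : ℝ) ≤
        ((∑ w ∈ T, (univ.filter fun c => H.Adj (f w) c).card : ℕ) : ℝ) := by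
          exact_mod_cast card_biUnion_le
      _ = ∑ w ∈ T, ((univ.filter fun c => H.Adj (f w) c).card : ℝ) := by push_cast; rfl
      _ ≤ ∑ w ∈ T, k := sum_le_sum fun w _ => hD (f w)
      _ = T.card * k := by rw [sum_const, nsmul_eq_mul]
  have h5 : ac G H (S \ T) t f = bc G H (S \ T) y t f +
      ((univ.filter fun c => Av G H (S \ T) t f c ∧ ¬ H.Adj y c).card : ℝ) := by
    unfold ac bc
    have := card_filter_add_card_filter_not (s := univ.filter (Av G H (S \ T) t f))
      (fun c => H.Adj y c)
    rw [filter_filter, filter_filter] at this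
    exact_mod_cast this.symm
  have h6 : (T.card : ℝ) * (k + 1) ≤ M * (k + 1) :=
    mul_le_mul_of_nonneg_right hTM (by linarith)
  rw [h5, hρ]
  linarith

/-- weight of the hidden vertices -/
def ee (H : SimpleGraph W) (p : ℝ) (y : W) (T : Finset V) (f : V → W) : ℝ :=
  ∏ u ∈ T, (if H.Adj y (f u) then 1 else p)

theorem ee_nonneg {p : ℝ} (hp : 0 ≤ p) (y : W) (T : Finset V) (f : V → W) :
    0 ≤ ee H p y T f := prod_nonneg fun u _ => by split_ifs; exacts [zero_le_one, hp]

theorem seq {p ρ M s0 qm k : ℝ} (hp : 0 < p)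
    (hD : ∀ x : W, ((univ.filter fun c => H.Adj x c).card : ℝ) ≤ k)
    (hk : 0 ≤ k) (hρ : ρ = M * (k + 1)) (hs0 : ρ + k ≤ s0) (hqm : qm ≤ 1)
    (hW : 0 < Fintype.card W) (y : W) {S T B : Finset V} (hTS : T ⊆ S) (hBT : Disjoint B T) :
    ∀ L : Finset V, L ⊆ T → ∀ w : (V → W) → ℝ, (∀ f, 0 ≤ w f) →
      (∀ f, w f ≠ 0 → Gd G H p ρ M s0 qm S T y f) →
      (∀ t ∈ T, ∀ f c, w (update f t c) = w f) →
      ∑ f : V → W, (if Ok G H S f ∧ NA H y B f then
        w f * (∏ t ∈ L, (1 - qq G H p ρ (S \ T) y t f)) * ee H p y T f else 0) ≤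
      ∑ f : V → W, (if Ok G H S f ∧ NA H y B f ∧ NA H y L f then w f * ee H p y T f else 0) := by
  have hW' : (0 : ℝ) < Fintype.card W := by exact_mod_cast hW
  intro L
  induction L using Finset.induction_on with
  | empty =>
    intro _ w _ _ _
    simp [NA]
  | insert t L htL ih =>
    intro hL w hw0 hws hw
    have htT : t ∈ T := hL (mem_insert_self t L)
    have htS : t ∈ S := hTS htT
    have htO : t ∉ S \ T := fun h => (mem_sdiff.1 h).2 htT
    have htB : t ∉ B := fun h => (disjoint_left.1 hBT h) htT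
    have hLT : L ⊆ T := fun x hx => hL (mem_insert_of_mem hx)
    have ht' : t ∉ S.erase t := notMem_erase t S
    have hwq : ∀ f, 0 ≤ w f * (1 - qq G H p ρ (S \ T) y t f) := by
      intro f
      by_cases h : w f = 0
      · rw [h, zero_mul]
      · have := ((hws f h).2 t htT).2
        exact mul_nonneg (hw0 f) (by linarith)
    have key := ih hLT (fun f => w f * (1 - qq G H p ρ (S \ T) y t f)) hwq
      (fun f h => hws f (left_ne_zero_of_mul h))
      (fun x hx f c => by
        have hx' : x ∉ S \ T := fun h => (mem_sdiff.1 h).2 hx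
        simp only [hw x hx, qq_update hx'])
    have e1 : ∑ f : V → W, (if Ok G H S f ∧ NA H y B f then
        w f * (∏ x ∈ insert t L, (1 - qq G H p ρ (S \ T) y x f)) * ee H p y T f else 0) =
        ∑ f : V → W, (if Ok G H S f ∧ NA H y B f then
        w f * (1 - qq G H p ρ (S \ T) y t f) * (∏ x ∈ L, (1 - qq G H p ρ (S \ T) y x f)) *
          ee H p y T f else 0) := by
      refine sum_congr rfl fun f _ => ?_
      rw [prod_insert htL]
      congr 1
      ring
    rw [e1]
    refine key.trans ?_
    have hNB : ∀ f c, NA H y B (update f t c) ↔ NA H y B f := by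
      intro f c
      unfold NA
      refine forall₂_congr fun u hu => ?_
      rw [update_of_ne]
      rintro rfl; exact htB hu
    have hNL : ∀ f c, NA H y L (update f t c) ↔ NA H y L f := by
      intro f c
      unfold NA
      refine forall₂_congr fun u hu => ?_
      rw [update_of_ne]
      rintro rfl; exact htL hu
    have hee : ∀ f c, ee H p y (T.erase t) (update f t c) = ee H p y (T.erase t) f := by
      intro f c
      unfold ee
      refine prod_congr rfl fun u hu => ?_
      rw [update_of_ne (ne_of_mem_erase hu)]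
    have s1 := swapg t (fun f : V → W => if Ok G H (S.erase t) f ∧ NA H y B f ∧ NA H y L f then
        w f * (1 - qq G H p ρ (S \ T) y t f) * ee H p y (T.erase t) f else 0)
      (fun f c => by
        simp only [ok_congr (update_ne ht' f c), hNB, hNL, hw t htT, qq_update htO, hee])
      (fun f c => if Av G H (S.erase t) t f c then (if H.Adj y c then 1 else p) else 0)
      (fun f c c' => by
        simp only [av_congr (fun x hx _ => update_ne ht' f c x hx) c'])
    have s2 := swapg t (fun f : V → W => if Ok G H (S.erase t) f ∧ NA H y B f ∧ NA H y L f then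
        w f * ee H p y (T.erase t) f else 0)
      (fun f c => by
        simp only [ok_congr (update_ne ht' f c), hNB, hNL, hw t htT, hee])
      (fun f c => if Av G H (S.erase t) t f c ∧ ¬ H.Adj y c then p else 0)
      (fun f c c' => by
        simp only [av_congr (fun x hx _ => update_ne ht' f c x hx) c'])
    have hTe : ∀ f : V → W, ee H p y T f =
        (if H.Adj y (f t) then 1 else p) * ee H p y (T.erase t) f := by
      intro f
      unfold ee
      rw [mul_prod_erase T (fun u => if H.Adj y (f u) then (1 : ℝ) else p) htT]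
    have t1 : ∑ f : V → W, (if Ok G H S f ∧ NA H y B f ∧ NA H y L f then
        w f * (1 - qq G H p ρ (S \ T) y t f) * ee H p y T f else 0) =
        ∑ f : V → W, (if Ok G H (S.erase t) f ∧ NA H y B f ∧ NA H y L f then
          w f * (1 - qq G H p ρ (S \ T) y t f) * ee H p y (T.erase t) f else 0) *
          (if Av G H (S.erase t) t f (f t) then (if H.Adj y (f t) then 1 else p) else 0) := by
      refine sum_congr rfl fun f _ => ?_
      have hok := ok_iff (G := G) (H := H) htS f
      by_cases h1 : Ok G H (S.erase t) f ∧ NA H y B f ∧ NA H y L f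
      · rw [if_pos h1]
        by_cases h2 : Av G H (S.erase t) t f (f t)
        · rw [if_pos ⟨hok.2 ⟨h1.1, h2⟩, h1.2⟩, if_pos h2, hTe]
          ring
        · rw [if_neg (fun h => h2 (hok.1 h.1).2), if_neg h2, mul_zero]
      · rw [if_neg h1, zero_mul, if_neg]
        exact fun h => h1 ⟨(hok.1 h.1).1, h.2⟩
    have t2 : ∑ f : V → W, (if Ok G H S f ∧ NA H y B f ∧ NA H y (insert t L) f then
        w f * ee H p y T f else 0) =
        ∑ f : V → W, (if Ok G H (S.erase t) f ∧ NA H y B f ∧ NA H y L f then
          w f * ee H p y (T.erase t) f else 0) *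
          (if Av G H (S.erase t) t f (f t) ∧ ¬ H.Adj y (f t) then p else 0) := by
      refine sum_congr rfl fun f _ => ?_
      have hok := ok_iff (G := G) (H := H) htS f
      have hNi : NA H y (insert t L) f ↔ ¬ H.Adj y (f t) ∧ NA H y L f := by
        unfold NA
        rw [forall_mem_insert]
      by_cases h1 : Ok G H (S.erase t) f ∧ NA H y B f ∧ NA H y L f
      · rw [if_pos h1]
        by_cases h2 : Av G H (S.erase t) t f (f t) ∧ ¬ H.Adj y (f t)
        · rw [if_pos ⟨hok.2 ⟨h1.1, h2.1⟩, h1.2.1, hNi.2 ⟨h2.2, h1.2.2⟩⟩, if_pos h2, hTe,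
            if_neg h2.2]
          ring
        · rw [if_neg h2, mul_zero, if_neg]
          exact fun h => h2 ⟨(hok.1 h.1).2, (hNi.1 h.2.2).1⟩
      · rw [if_neg h1, zero_mul, if_neg]
        exact fun h => h1 ⟨(hok.1 h.1).1, h.2.1, (hNi.1 h.2.2).2⟩
    rw [t1, t2]
    refine le_of_mul_le_mul_left ?_ hW'
    rw [s1, s2]
    refine sum_le_sum fun f _ => ?_
    by_cases h1 : Ok G H (S.erase t) f ∧ NA H y B f ∧ NA H y L f
    · rw [if_pos h1, if_pos h1]
      by_cases hw00 : w f = 0
      · rw [hw00]; simp
      obtain ⟨hTM, hgd⟩ := hws f hw00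
      obtain ⟨hs, hq⟩ := hgd t htT
      set nh : ℝ := ((univ.filter fun c => Av G H (S.erase t) t f c ∧ H.Adj y c).card : ℝ) with hnh
      set nn : ℝ := ((univ.filter fun c => Av G H (S.erase t) t f c ∧ ¬ H.Adj y c).card : ℝ)
        with hnn
      have c1 : ∑ c : W, (if Av G H (S.erase t) t f c then (if H.Adj y c then (1 : ℝ) else p)
          else 0) = nh + p * nn := by
        have : ∀ c : W, (if Av G H (S.erase t) t f c then (if H.Adj y c then (1 : ℝ) else p)
          else 0) = (if Av G H (S.erase t) t f c ∧ H.Adj y c then (1 : ℝ) else 0) +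
            p * (if Av G H (S.erase t) t f c ∧ ¬ H.Adj y c then (1 : ℝ) else 0) := by
          intro c
          by_cases h1 : Av G H (S.erase t) t f c
          · by_cases h2 : H.Adj y c
            · simp [h1, h2]
            · simp [h1, h2]
          · simp [h1]
        rw [sum_congr rfl fun c _ => this c, sum_add_distrib, ← mul_sum, sum_boole, sum_boole]
      have c2 : ∑ c : W, (if Av G H (S.erase t) t f c ∧ ¬ H.Adj y c then p else 0) = p * nn := by
        rw [← sum_filter, sum_const, nsmul_eq_mul, mul_comm]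
      rw [c1, c2]
      have hb : nh ≤ bc G H (S \ T) y t f := by
        rw [hnh]
        unfold bc
        refine Nat.cast_le.2 (card_le_card fun c hc => mem_filter.2 ⟨mem_univ _, ?_⟩)
        obtain ⟨hc1, hc2⟩ := (mem_filter.1 hc).2
        refine ⟨fun x hx hne => hc1 x (mem_erase.2 ⟨hne, (mem_sdiff.1 hx).1⟩) hne, hc2⟩
      have hnn1 := non_ge (G := G) hD hk hρ hTM (S := S) (t := t) y f
      rw [← hnn] at hnn1
      have hbk := bc_le (G := G) hD (S \ T) y t f
      have hb0 := bc_nonneg (G := G) (H := H) (S \ T) y t f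
      have hpos : 0 < ac G H (S \ T) t f - bc G H (S \ T) y t f - ρ := by linarith
      have hq0 : 0 ≤ qq G H p ρ (S \ T) y t f := by
        unfold qq; positivity
      have hqe : qq G H p ρ (S \ T) y t f *
          (p * (ac G H (S \ T) t f - bc G H (S \ T) y t f - ρ)) = bc G H (S \ T) y t f := by
        unfold qq
        field_simp
      have hnh0 : 0 ≤ nh := by rw [hnh]; positivity
      have h5 : nh ≤ qq G H p ρ (S \ T) y t f * (nh + p * nn) := by
        have h6 : qq G H p ρ (S \ T) y t f *
          (p * (ac G H (S \ T) t f - bc G H (S \ T) y t f - ρ)) ≤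
          qq G H p ρ (S \ T) y t f * (nh + p * nn) := by
          refine mul_le_mul_of_nonneg_left ?_ hq0
          nlinarith
        linarith
      have h7 : (1 - qq G H p ρ (S \ T) y t f) * (nh + p * nn) ≤ p * nn := by nlinarith
      have he0 := ee_nonneg (H := H) hp.le y (T.erase t) f
      calc w f * (1 - qq G H p ρ (S \ T) y t f) * ee H p y (T.erase t) f * (nh + p * nn) =
          w f * ee H p y (T.erase t) f * ((1 - qq G H p ρ (S \ T) y t f) * (nh + p * nn)) := by
            ring
        _ ≤ w f * ee H p y (T.erase t) f * (p * nn) :=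
            mul_le_mul_of_nonneg_left h7 (mul_nonneg (hw0 f) he0)
    · rw [if_neg h1, if_neg h1]
      simp

end Pool.Agent.H8.SD
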