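import Pool.Agent.H8.SD.Main

/-! # Packing a locally sparse graph: the induction step and the packing theorem -/

set_option autoImplicit false
set_option linter.unusedSectionVars false

noncomputable section

namespace Pool.Agent.H8.SD

open Finset Function
open scoped Classical

variable {V W : Type} [Fintype V] [Fintype W]
variable {G : SimpleGraph V} {H : SimpleGraph W}

theorem mul_ind (p : Prop) (x : ℝ) : (if p then (1 : ℝ) else 0) * x = if p then x else 0 := by
  split_ifs <;> simp

/-- the average number of available vertices for `v` is at least `β` -/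
theorem step {d τ : ℕ} {s ρ D θ x0 β : ℝ} (hρdef : ρ = d + τ * D) (hρs : ρ < s)
    (hDs : D < s - ρ)
    (hdeg : ∀ v : V, (univ.filter fun w => G.Adj v w).card ≤ d)
    (hτ : ∀ v t : V, G.Adj v t → (univ.filter fun w => G.Adj v w ∧ G.Adj t w).card ≤ τ)
    (hD : ∀ x : W, ((univ.filter fun c => H.Adj x c).card : ℝ) ≤ D) (hD0 : 0 ≤ D)
    (hθ : 1 ≤ θ * (1 - D / (s - ρ))) (hθ0 : 0 ≤ θ)
    (hx : θ * (d * (D * (s / (s - ρ)))) ≤ x0 * Fintype.card W)
    (hW : 0 < Fintype.card W) (hβ : 0 < β)
    (hfin : β ≤ Real.exp (-x0) * Fintype.card W - D * (d * (s / β)) - Fintype.card V)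
    {S : Finset V} {v : V} (hv : v ∉ S)
    (ih : ∀ u ∈ S, β * cnt G H (S.erase u) ≤
      ∑ f : V → W, (if Ok G H (S.erase u) f then (1 : ℝ) else 0) * ac G H (S.erase u) u f) :
    β * cnt G H S ≤ ∑ f : V → W, (if Ok G H S f then (1 : ℝ) else 0) * ac G H S v f := by
  have hρ0 : 0 ≤ ρ := by rw [hρdef]; positivity
  have hs0 : 0 < s := by linarith
  have hsρ : 0 < s - ρ := by linarith
  set U := S.filter (fun w => G.Adj v w) with hU
  set O := S.filter (fun w => ¬ G.Adj v w) with hO
  have hOS : O ⊆ S := filter_subset _ _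
  have hSO : S \ O = U := by
    ext x
    simp only [hO, hU, mem_sdiff, mem_filter]
    tauto
  have hUd : U.card ≤ d := by
    refine (card_le_card ?_).trans (hdeg v)
    intro w hw
    exact mem_filter.2 ⟨mem_univ _, (mem_filter.1 hw).2⟩
  have hlow : ∀ t ∈ S \ O, ∀ f : V → W, ac G H O t f - ρ ≤ ac G H (S.erase t) t f := by
    intro t ht f
    rw [hSO] at ht
    rw [hρdef]
    exact low (hdeg v) (hτ v t (mem_filter.1 ht).2) hD ht f
  -- pointwise lower bound
  have hpt : ∀ f : V → W, ((univ.filter fun y => PL G H O s y U f).card : ℝ) -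
      D * ((U.filter fun u => ac G H O u f ≤ s).card : ℝ) - Fintype.card V ≤ ac G H S v f := by
    intro f
    have hsub : (univ.filter fun y => PL G H O s y U f) ⊆ (univ.filter (Av G H S v f)) ∪
        ((S.image f) ∪ (U.filter fun u => ac G H O u f ≤ s).biUnion
          (fun u => univ.filter fun c => H.Adj (f u) c)) := by
      intro y hy
      have hy : PL G H O s y U f := (mem_filter.1 hy).2
      by_cases h : Av G H S v f y
      · exact mem_union_left _ (mem_filter.2 ⟨mem_univ _, h⟩)
      · refine mem_union_right _ ?_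
        unfold Av at h
        push Not at h
        obtain ⟨w, hw, hne, h2⟩ := h
        by_cases hyw : y = f w
        · exact mem_union_left _ (mem_image.2 ⟨w, hw, hyw.symm⟩)
        · obtain ⟨h3, h4⟩ := h2 hyw
          have hwU : w ∈ U := mem_filter.2 ⟨hw, h3⟩
          refine mem_union_right _ (mem_biUnion.2 ⟨w, mem_filter.2 ⟨hwU, ?_⟩, ?_⟩)
          · by_contra h5
            push Not at h5
            exact hy w hwU h5 h4
          · exact mem_filter.2 ⟨mem_univ _, h4.symm⟩
    have h1 := (card_le_card hsub).trans ((card_union_le _ _).trans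
      (Nat.add_le_add_left (card_union_le _ _) _))
    have h2 : ((univ.filter fun y => PL G H O s y U f).card : ℝ) ≤ ac G H S v f +
        ((S.image f).card + (((U.filter fun u => ac G H O u f ≤ s).biUnion
          (fun u => univ.filter fun c => H.Adj (f u) c)).card : ℝ)) := by
      unfold ac
      exact_mod_cast h1
    have h3 : ((S.image f).card : ℝ) ≤ Fintype.card V := by
      exact_mod_cast card_image_le.trans (card_le_univ S)
    have h4 : ((((U.filter fun u => ac G H O u f ≤ s).biUnion
          (fun u => univ.filter fun c => H.Adj (f u) c)).card : ℝ)) ≤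
        D * ((U.filter fun u => ac G H O u f ≤ s).card : ℝ) := by
      calc ((((U.filter fun u => ac G H O u f ≤ s).biUnion
          (fun u => univ.filter fun c => H.Adj (f u) c)).card : ℝ)) ≤
          ((∑ u ∈ U.filter fun u => ac G H O u f ≤ s,
            (univ.filter fun c => H.Adj (f u) c).card : ℕ) : ℝ) := by
            exact_mod_cast card_biUnion_le
        _ = ∑ u ∈ U.filter fun u => ac G H O u f ≤ s,
            ((univ.filter fun c => H.Adj (f u) c).card : ℝ) := by push_cast; rfl
        _ ≤ ∑ u ∈ U.filter fun u => ac G H O u f ≤ s, D := sum_le_sum fun u _ => hD (f u)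
        _ = _ := by rw [sum_const, nsmul_eq_mul, mul_comm]
    linarith
  -- main term
  have hmain : Real.exp (-x0) * Fintype.card W * cnt G H S ≤
      ∑ f : V → W, (if Ok G H S f then (1 : ℝ) else 0) *
        ((univ.filter fun y => PL G H O s y U f).card : ℝ) := by
    have e1 : ∑ f : V → W, (if Ok G H S f then (1 : ℝ) else 0) *
        ((univ.filter fun y => PL G H O s y U f).card : ℝ) =
        ∑ y : W, ∑ f : V → W, (if Ok G H S f ∧ PL G H O s y U f then (1 : ℝ) else 0) := by
      rw [sum_comm]
      refine sum_congr rfl fun f _ => ?_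
      by_cases h : Ok G H S f
      · simp [h]
      · simp [h]
    rw [e1]
    have e2 : ∀ y : W, ∑ f : V → W, (if Ok G H S f then
        (1 : ℝ) * ∏ t ∈ U, (1 - qf G H O s ρ y t f) else 0) ≤
        ∑ f : V → W, (if Ok G H S f ∧ PL G H O s y U f then (1 : ℝ) else 0) := by
      intro y
      exact avoid y hOS hW hρs hDs.le hD hlow U (by rw [hSO]) (fun _ => 1)
        (fun _ => zero_le_one) (fun _ _ _ _ => rfl)
    refine le_trans ?_ (sum_le_sum fun y _ => e2 y)
    rw [sum_comm]
    unfold cnt
    rw [mul_sum]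
    refine sum_le_sum fun f _ => ?_
    by_cases h : Ok G H S f
    · simp only [h, if_true, mul_one, one_mul]
      refine avg hρ0 hρs hDs hD hD0 hθ hθ0 ?_ f
      refine le_trans ?_ hx
      refine mul_le_mul_of_nonneg_left ?_ hθ0
      refine mul_le_mul_of_nonneg_right (by exact_mod_cast hUd) ?_
      positivity
    · simp [h]
  -- error term
  have herr : ∑ f : V → W, (if Ok G H S f then (1 : ℝ) else 0) *
      ((U.filter fun u => ac G H O u f ≤ s).card : ℝ) ≤ d * (s / β) * cnt G H S := by
    have e1 : ∑ f : V → W, (if Ok G H S f then (1 : ℝ) else 0) *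
        ((U.filter fun u => ac G H O u f ≤ s).card : ℝ) =
        ∑ u ∈ U, ∑ f : V → W, (if Ok G H S f ∧ ac G H O u f ≤ s then (1 : ℝ) else 0) := by
      rw [sum_comm]
      refine sum_congr rfl fun f _ => ?_
      by_cases h : Ok G H S f
      · simp [h]
      · simp [h]
    rw [e1]
    have e2 : ∀ u ∈ U, ∑ f : V → W, (if Ok G H S f ∧ ac G H O u f ≤ s then (1 : ℝ) else 0) ≤
        s / β * cnt G H S := by
      intro u hu
      have huS : u ∈ S := (mem_filter.1 hu).1
      have hmono : ∀ f : V → W, ac G H (S.erase u) u f ≤ ac G H O u f := by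
        intro f
        unfold ac
        refine Nat.cast_le.2 (card_le_card fun c hc => mem_filter.2 ⟨mem_univ _, ?_⟩)
        intro w hw hne
        exact (mem_filter.1 hc).2 w (mem_erase.2 ⟨hne, hOS hw⟩) hne
      have h1 := few_short huS hs0.le hW (ih u huS) hβ.le
      have h2 : ∑ f : V → W, (if Ok G H S f ∧ ac G H O u f ≤ s then (1 : ℝ) else 0) ≤
          ∑ f : V → W, (if Ok G H S f ∧ ac G H (S.erase u) u f ≤ s then (1 : ℝ) else 0) := by
        refine sum_le_sum fun f _ => ?_
        by_cases h : Ok G H S f ∧ ac G H O u f ≤ s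
        · rw [if_pos h, if_pos ⟨h.1, (hmono f).trans h.2⟩]
        · rw [if_neg h]
          split_ifs <;> norm_num
      refine h2.trans ?_
      rw [div_mul_eq_mul_div, le_div_iff₀ hβ, mul_comm]
      exact h1
    calc ∑ u ∈ U, ∑ f : V → W, (if Ok G H S f ∧ ac G H O u f ≤ s then (1 : ℝ) else 0) ≤
        ∑ u ∈ U, (s / β * cnt G H S) := sum_le_sum e2
      _ = U.card * (s / β * cnt G H S) := by rw [sum_const, nsmul_eq_mul]
      _ ≤ d * (s / β * cnt G H S) := by
          refine mul_le_mul_of_nonneg_right (by exact_mod_cast hUd) ?_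
          exact mul_nonneg (by positivity) (cnt_nonneg S)
      _ = _ := by ring
  have hsum : ∑ f : V → W, (if Ok G H S f then (1 : ℝ) else 0) *
      (((univ.filter fun y => PL G H O s y U f).card : ℝ) -
      D * ((U.filter fun u => ac G H O u f ≤ s).card : ℝ) - Fintype.card V) ≤
      ∑ f : V → W, (if Ok G H S f then (1 : ℝ) else 0) * ac G H S v f := by
    refine sum_le_sum fun f _ => mul_le_mul_of_nonneg_left (hpt f) ?_
    split_ifs <;> norm_num
  refine le_trans ?_ hsum
  have e3 : ∑ f : V → W, (if Ok G H S f then (1 : ℝ) else 0) *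
      (((univ.filter fun y => PL G H O s y U f).card : ℝ) -
      D * ((U.filter fun u => ac G H O u f ≤ s).card : ℝ) - Fintype.card V) =
      ∑ f : V → W, (if Ok G H S f then (1 : ℝ) else 0) *
        ((univ.filter fun y => PL G H O s y U f).card : ℝ) -
      D * ∑ f : V → W, (if Ok G H S f then (1 : ℝ) else 0) *
        ((U.filter fun u => ac G H O u f ≤ s).card : ℝ) - Fintype.card V * cnt G H S := by
    unfold cnt
    rw [mul_sum, mul_sum, ← sum_sub_distrib, ← sum_sub_distrib]
    refine sum_congr rfl fun f _ => ?_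
    ring
  rw [e3]
  have h0 := cnt_nonneg (G := G) (H := H) S
  have h1 := mul_le_mul_of_nonneg_left herr hD0
  have h2 := mul_le_mul_of_nonneg_right hfin h0
  nlinarith

/-- all partial packings extend on average -/
theorem all_steps {d τ : ℕ} {s ρ D θ x0 β : ℝ} (hρdef : ρ = d + τ * D) (hρs : ρ < s)
    (hDs : D < s - ρ)
    (hdeg : ∀ v : V, (univ.filter fun w => G.Adj v w).card ≤ d)
    (hτ : ∀ v t : V, G.Adj v t → (univ.filter fun w => G.Adj v w ∧ G.Adj t w).card ≤ τ)
    (hD : ∀ x : W, ((univ.filter fun c => H.Adj x c).card : ℝ) ≤ D) (hD0 : 0 ≤ D)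
    (hθ : 1 ≤ θ * (1 - D / (s - ρ))) (hθ0 : 0 ≤ θ)
    (hx : θ * (d * (D * (s / (s - ρ)))) ≤ x0 * Fintype.card W)
    (hW : 0 < Fintype.card W) (hβ : 0 < β)
    (hfin : β ≤ Real.exp (-x0) * Fintype.card W - D * (d * (s / β)) - Fintype.card V) :
    ∀ (n : ℕ) (S : Finset V), S.card = n → ∀ v : V, v ∉ S →
    β * cnt G H S ≤ ∑ f : V → W, (if Ok G H S f then (1 : ℝ) else 0) * ac G H S v f := by
  intro n
  induction n with
  | zero =>
    intro S hS v hv
    refine step hρdef hρs hDs hdeg hτ hD hD0 hθ hθ0 hx hW hβ hfin hv ?_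
    intro u hu
    rw [card_eq_zero.1 hS] at hu
    exact absurd hu (notMem_empty u)
  | succ n ih =>
    intro S hS v hv
    refine step hρdef hρs hDs hdeg hτ hD hD0 hθ hθ0 hx hW hβ hfin hv ?_
    intro u hu
    exact ih (S.erase u) (by rw [card_erase_of_mem hu, hS]; rfl) u (notMem_erase u S)

/-- the packing exists -/
theorem exists_ok {β : ℝ} (hβ : 0 < β) (hW : 0 < Fintype.card W)
    (h : ∀ (n : ℕ) (S : Finset V), S.card = n → ∀ v : V, v ∉ S →
      β * cnt G H S ≤ ∑ f : V → W, (if Ok G H S f then (1 : ℝ) else 0) * ac G H S v f) :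
    ∃ f : V → W, Ok G H univ f := by
  have hW' : (0 : ℝ) < Fintype.card W := by exact_mod_cast hW
  have hpos : ∀ S : Finset V, 0 < cnt G H S := by
    intro S
    induction S using Finset.induction_on with
    | empty =>
      unfold cnt
      have : ∀ f : V → W, Ok G H ∅ f := fun f u hu => absurd hu (notMem_empty u)
      simp only [this, if_true, sum_const, card_univ, nsmul_eq_mul, mul_one]
      rw [Fintype.card_fun]
      exact_mod_cast pow_pos hW _
    | insert v S hv ih =>
      have h1 := h S.card S rfl v hv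
      rw [← cnt_insert hv] at h1
      have h2 : 0 < β * cnt G H S := mul_pos hβ ih
      by_contra h3
      push Not at h3
      have : (Fintype.card W : ℝ) * cnt G H (insert v S) ≤ 0 :=
        mul_nonpos_of_nonneg_of_nonpos hW'.le h3
      linarith
  by_contra hne
  push Not at hne
  have h1 := hpos univ
  unfold cnt at h1
  simp only [hne, if_false, sum_const_zero, lt_irrefl] at h1

end Pool.Agent.H8.SD
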