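import Pool.Agent.H8.SD.Exp
import Pool.Agent.H8.SD.Step

/-! # The induction step for a triangle-free graph `H` -/

set_option autoImplicit false
set_option linter.unusedSectionVars false

noncomputable section

namespace Pool.Agent.H8.SD

open Finset Function
open scoped Classical

variable {V W : Type} [Fintype V] [Fintype W]
variable {G : SimpleGraph V} {H : SimpleGraph W}

/-- fixed packing, fixed coins -/
theorem sum_FF {p ρ M s0 s1 qm k θ x0 Q : ℝ} {d : ℕ} (hp : 0 < p) (hM : 0 < M) (hk : 0 < k)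
    (hρ0 : 0 ≤ ρ) (hD : ∀ x : W, ((univ.filter fun c => H.Adj x c).card : ℝ) ≤ k)
    (htri : ∀ a b c : W, H.Adj a b → H.Adj b c → H.Adj a c → False)
    (hs0 : 2 * (ρ + k) ≤ s0) (hqm : 0 < qm) (hqm1 : qm < 1) (hs01 : s0 ≤ s1)
    (hs1 : k / (qm * p) + k + ρ ≤ s1) (hθ : 1 ≤ θ * (1 - qm)) (hθ0 : 0 ≤ θ) (hx0 : 0 ≤ x0)
    (hQ : 2 / p * (k + k * d / s0) ≤ Q) {S U L : Finset V} (hU : U.card ≤ d) (f : V → W) :
    Real.exp (-x0) * ((Fintype.card W * (1 + x0) - θ * (qm * (k * d)) -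
        (1 + x0) * (k * d / M + k * ∑ t ∈ U, zz G H S s1 t f)) -
      (θ * Q + (1 + x0) * Fintype.card W / M) * (∑ t ∈ L, (1 : ℝ)) -
      ((1 + x0) * Fintype.card W) * (∑ t ∈ L, zz G H S s0 t f) -
      ((1 + x0) * (Q / qm)) * (∑ t ∈ L, zz G H S s1 t f)) ≤
    ∑ y : W, FF G H p ρ M s0 qm S y f (L ∪ Hit H U y f) := by
  have hs0' : ρ + k ≤ s0 := by linarith
  have hs0p : 0 < s0 := by linarith
  refine le_trans ?_ (sum_le_sum fun y _ => FF_ge (G := G) (S := S) (U := U) (L := L) hp hM hD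
    hs0' hqm hqm1 hs01 hs1 hθ hθ0 hx0 y f)
  rw [← mul_sum]
  refine mul_le_mul_of_nonneg_left ?_ (Real.exp_pos _).le
  have hUd : (U.card : ℝ) ≤ d := by exact_mod_cast hU
  have B1 : ∑ y : W, ((Hit H U y f).card : ℝ) ≤ k * d :=
    (sum_card_hit hD U f).trans (mul_le_mul_of_nonneg_left hUd hk.le)
  have hQt : ∀ t : V, ∑ y : W, q0 G H p ρ s0 (S \ (L ∪ Hit H U y f)) y t f ≤ Q := by
    intro t
    refine (sum_q0 hp hk hρ0 hD hs0 htri t f).trans (le_trans ?_ hQ)
    refine mul_le_mul_of_nonneg_left ?_ (by positivity)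
    have : k * (U.card : ℝ) / s0 ≤ k * d / s0 :=
      div_le_div_of_nonneg_right (mul_le_mul_of_nonneg_left hUd hk.le) hs0p.le
    linarith
  have B2 : ∑ y : W, ∑ t ∈ L, q0 G H p ρ s0 (S \ (L ∪ Hit H U y f)) y t f ≤
      Q * ∑ t ∈ L, (1 : ℝ) := by
    rw [sum_comm, mul_sum]
    refine sum_le_sum fun t _ => ?_
    rw [mul_one]; exact hQt t
  have B3 : ∑ y : W, ∑ t ∈ Hit H U y f, zz G H S s1 t f ≤ k * ∑ t ∈ U, zz G H S s1 t f :=
    sum_hit hD U f _ (fun t => zz_nonneg _ _ _ _)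
  have B4 : ∑ y : W, ∑ t ∈ L, zz G H S s1 t f *
      (q0 G H p ρ s0 (S \ (L ∪ Hit H U y f)) y t f / qm) ≤
      Q / qm * ∑ t ∈ L, zz G H S s1 t f := by
    rw [sum_comm, mul_sum]
    refine sum_le_sum fun t _ => ?_
    rw [← mul_sum, ← sum_div, mul_comm]
    exact mul_le_mul_of_nonneg_right (div_le_div_of_nonneg_right (hQt t) hqm.le)
      (zz_nonneg _ _ _ _)
  have hsum : ∑ y : W, (1 + x0 - θ * (qm * (Hit H U y f).card +
      ∑ t ∈ L, q0 G H p ρ s0 (S \ (L ∪ Hit H U y f)) y t f) -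
      (1 + x0) * ((L.card : ℝ) / M + (Hit H U y f).card / M +
      ∑ t ∈ Hit H U y f, zz G H S s1 t f + ∑ t ∈ L, zz G H S s0 t f +
      ∑ t ∈ L, zz G H S s1 t f * (q0 G H p ρ s0 (S \ (L ∪ Hit H U y f)) y t f / qm))) =
      Fintype.card W * (1 + x0) - θ * (qm * (∑ y : W, ((Hit H U y f).card : ℝ)) +
        ∑ y : W, ∑ t ∈ L, q0 G H p ρ s0 (S \ (L ∪ Hit H U y f)) y t f) -
      (1 + x0) * (Fintype.card W * ((L.card : ℝ) / M) +
        (∑ y : W, ((Hit H U y f).card : ℝ)) / M +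
        ∑ y : W, ∑ t ∈ Hit H U y f, zz G H S s1 t f +
        Fintype.card W * (∑ t ∈ L, zz G H S s0 t f) +
        ∑ y : W, ∑ t ∈ L, zz G H S s1 t f *
          (q0 G H p ρ s0 (S \ (L ∪ Hit H U y f)) y t f / qm)) := by
    simp only [sum_sub_distrib, sum_add_distrib, ← mul_sum, sum_const, card_univ, nsmul_eq_mul,
      sum_div]
    ring
  rw [hsum]
  have hL1 : (L.card : ℝ) = ∑ t ∈ L, (1 : ℝ) := by simp
  rw [hL1]
  have h1 := mul_le_mul_of_nonneg_left B1 (mul_nonneg hθ0 hqm.le)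
  have h2 := mul_le_mul_of_nonneg_left B2 hθ0
  have hx1 : 0 ≤ 1 + x0 := by linarith
  have h3 := mul_le_mul_of_nonneg_left B3 hx1
  have h4 := mul_le_mul_of_nonneg_left B4 hx1
  have h5 := mul_le_mul_of_nonneg_left (div_le_div_of_nonneg_right B1 hM.le) hx1
  have e1 : (1 + x0) * (Fintype.card W * ((∑ t ∈ L, (1 : ℝ)) / M)) =
      (1 + x0) * Fintype.card W / M * ∑ t ∈ L, (1 : ℝ) := by ring
  linarith

/-- the average over the coins -/
theorem avg_coins {p ρ M s0 s1 qm k θ x0 Q : ℝ} {d : ℕ} (hp : 0 < p) (hp1 : p ≤ 1) (hM : 0 < M)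
    (hk : 0 < k)
    (hρ0 : 0 ≤ ρ) (hD : ∀ x : W, ((univ.filter fun c => H.Adj x c).card : ℝ) ≤ k)
    (htri : ∀ a b c : W, H.Adj a b → H.Adj b c → H.Adj a c → False)
    (hs0 : 2 * (ρ + k) ≤ s0) (hqm : 0 < qm) (hqm1 : qm < 1) (hs01 : s0 ≤ s1)
    (hs1 : k / (qm * p) + k + ρ ≤ s1) (hθ : 1 ≤ θ * (1 - qm)) (hθ0 : 0 ≤ θ) (hx0 : 0 ≤ x0)
    (hQ : 2 / p * (k + k * d / s0) ≤ Q) {S U : Finset V} (hU : U.card ≤ d) (f : V → W) :
    Real.exp (-x0) * ((Fintype.card W * (1 + x0) - θ * (qm * (k * d)) -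
        (1 + x0) * (k * d / M) - (θ * Q + (1 + x0) * Fintype.card W / M) * (p * d)) -
      ((1 + x0) * (Fintype.card W * p)) * (∑ t ∈ U, zz G H S s0 t f) -
      ((1 + x0) * (k + Q * p / qm)) * (∑ t ∈ U, zz G H S s1 t f)) ≤
    ∑ y : W, ∑ L ∈ U.powerset, pi' p U L * FF G H p ρ M s0 qm S y f (L ∪ Hit H U y f) := by
  have hs0p : 0 < s0 := by linarith
  rw [sum_comm]
  have h1 : ∀ L ∈ U.powerset, pi' p U L *
      (Real.exp (-x0) * ((Fintype.card W * (1 + x0) - θ * (qm * (k * d)) -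
        (1 + x0) * (k * d / M + k * ∑ t ∈ U, zz G H S s1 t f)) -
      (θ * Q + (1 + x0) * Fintype.card W / M) * (∑ t ∈ L, (1 : ℝ)) -
      ((1 + x0) * Fintype.card W) * (∑ t ∈ L, zz G H S s0 t f) -
      ((1 + x0) * (Q / qm)) * (∑ t ∈ L, zz G H S s1 t f))) ≤
      ∑ y : W, pi' p U L * FF G H p ρ M s0 qm S y f (L ∪ Hit H U y f) := by
    intro L _
    rw [← mul_sum]
    exact mul_le_mul_of_nonneg_left (sum_FF hp hM hk hρ0 hD htri hs0 hqm hqm1 hs01 hs1 hθ hθ0
      hx0 hQ hU f) (pi'_nonneg hp.le hp1 U L)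
  refine le_trans ?_ (sum_le_sum h1)
  set C0 : ℝ := Fintype.card W * (1 + x0) - θ * (qm * (k * d)) -
        (1 + x0) * (k * d / M + k * ∑ t ∈ U, zz G H S s1 t f) with hC0
  set C1 : ℝ := θ * Q + (1 + x0) * Fintype.card W / M with hC1
  set C2 : ℝ := (1 + x0) * Fintype.card W with hC2
  set C3 : ℝ := (1 + x0) * (Q / qm) with hC3
  have e1 : ∑ L ∈ U.powerset, pi' p U L * (Real.exp (-x0) * (C0 - C1 * (∑ t ∈ L, (1 : ℝ)) -
      C2 * (∑ t ∈ L, zz G H S s0 t f) - C3 * (∑ t ∈ L, zz G H S s1 t f))) =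
      Real.exp (-x0) * (C0 - C1 * (p * ∑ t ∈ U, (1 : ℝ)) - C2 * (p * ∑ t ∈ U, zz G H S s0 t f) -
        C3 * (p * ∑ t ∈ U, zz G H S s1 t f)) := by
    have e2 : ∀ L ∈ U.powerset, pi' p U L * (Real.exp (-x0) * (C0 - C1 * (∑ t ∈ L, (1 : ℝ)) -
      C2 * (∑ t ∈ L, zz G H S s0 t f) - C3 * (∑ t ∈ L, zz G H S s1 t f))) =
      Real.exp (-x0) * C0 * pi' p U L - Real.exp (-x0) * C1 * (pi' p U L * ∑ t ∈ L, (1 : ℝ)) -
      Real.exp (-x0) * C2 * (pi' p U L * ∑ t ∈ L, zz G H S s0 t f) -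
      Real.exp (-x0) * C3 * (pi' p U L * ∑ t ∈ L, zz G H S s1 t f) := by
      intro L _
      ring
    rw [sum_congr rfl e2, sum_sub_distrib, sum_sub_distrib, sum_sub_distrib, ← mul_sum, ← mul_sum,
      ← mul_sum, ← mul_sum, sum_pi', sum_pi'_mul, sum_pi'_mul, sum_pi'_mul]
    ring
  rw [e1]
  refine mul_le_mul_of_nonneg_left ?_ (Real.exp_pos _).le
  have hU1 : ∑ t ∈ U, (1 : ℝ) ≤ d := by
    rw [sum_const, nsmul_eq_mul, mul_one]; exact_mod_cast hU
  have hQ0 : 0 ≤ Q := le_trans (by positivity) hQ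
  have hC10 : 0 ≤ C1 := by rw [hC1]; positivity
  have h2 : C1 * (p * ∑ t ∈ U, (1 : ℝ)) ≤ C1 * (p * d) :=
    mul_le_mul_of_nonneg_left (mul_le_mul_of_nonneg_left hU1 hp.le) hC10
  have e3 : ((1 + x0) * (k + Q * p / qm)) * (∑ t ∈ U, zz G H S s1 t f) =
      (1 + x0) * (k * ∑ t ∈ U, zz G H S s1 t f) + C3 * (p * ∑ t ∈ U, zz G H S s1 t f) := by
    rw [hC3]; ring
  have e4 : ((1 + x0) * (Fintype.card W * p)) * (∑ t ∈ U, zz G H S s0 t f) =
      C2 * (p * ∑ t ∈ U, zz G H S s0 t f) := by rw [hC2]; ring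
  rw [e3, e4, hC0]
  linarith

theorem step2 {p ρ M s0 s1 qm k θ x0 Q β : ℝ} {d : ℕ} (hp : 0 < p) (hp1 : p ≤ 1) (hM : 0 < M)
    (hk : 0 < k) (hρ : ρ = M * (k + 1))
    (hdeg : ∀ v : V, (univ.filter fun w => G.Adj v w).card ≤ d)
    (hD : ∀ x : W, ((univ.filter fun c => H.Adj x c).card : ℝ) ≤ k)
    (htri : ∀ a b c : W, H.Adj a b → H.Adj b c → H.Adj a c → False)
    (hs0 : 2 * (ρ + k) ≤ s0) (hqm : 0 < qm) (hqm1 : qm < 1) (hs01 : s0 ≤ s1)
    (hs1 : k / (qm * p) + k + ρ ≤ s1) (hθ : 1 ≤ θ * (1 - qm)) (hθ0 : 0 ≤ θ) (hx0 : 0 ≤ x0)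
    (hQ : 2 / p * (k + k * d / s0) ≤ Q) (hW : 0 < Fintype.card W) (hβ : 0 < β)
    (hfin : β + Fintype.card V ≤ Real.exp (-x0) * ((Fintype.card W * (1 + x0) -
        θ * (qm * (k * d)) -
        (1 + x0) * (k * d / M) - (θ * Q + (1 + x0) * Fintype.card W / M) * (p * d)) -
      ((1 + x0) * (Fintype.card W * p)) * (d * (s0 / β)) -
      ((1 + x0) * (k + Q * p / qm)) * (d * (s1 / β))))
    {S : Finset V} {v : V}
    (ih : ∀ u ∈ S, β * cnt G H (S.erase u) ≤
      ∑ f : V → W, (if Ok G H (S.erase u) f then (1 : ℝ) else 0) * ac G H (S.erase u) u f) :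
    β * cnt G H S ≤ ∑ f : V → W, (if Ok G H S f then (1 : ℝ) else 0) * ac G H S v f := by
  have hρ0 : 0 ≤ ρ := by rw [hρ]; positivity
  have hs0p : 0 < s0 := by linarith
  set U := S.filter (fun w => G.Adj v w) with hU
  have hUS : U ⊆ S := filter_subset _ _
  have hUd : U.card ≤ d := by
    refine (card_le_card ?_).trans (hdeg v)
    intro w hw
    exact mem_filter.2 ⟨mem_univ _, (mem_filter.1 hw).2⟩
  -- pointwise
  have hpt : ∀ f : V → W, ((univ.filter fun y => NA H y U f).card : ℝ) - Fintype.card V ≤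
      ac G H S v f := by
    intro f
    have hsub : (univ.filter fun y => NA H y U f) ⊆ (univ.filter (Av G H S v f)) ∪ S.image f := by
      intro y hy
      have hy : NA H y U f := (mem_filter.1 hy).2
      by_cases h : Av G H S v f y
      · exact mem_union_left _ (mem_filter.2 ⟨mem_univ _, h⟩)
      · refine mem_union_right _ ?_
        unfold Av at h
        push Not at h
        obtain ⟨w, hw, hne, h2⟩ := h
        by_cases hyw : y = f w
        · exact mem_image.2 ⟨w, hw, hyw.symm⟩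
        · obtain ⟨h3, h4⟩ := h2 hyw
          exact absurd h4 (hy w (mem_filter.2 ⟨hw, h3⟩))
    have h1 := (card_le_card hsub).trans (card_union_le _ _)
    have h2 : ((univ.filter fun y => NA H y U f).card : ℝ) ≤ ac G H S v f + (S.image f).card := by
      unfold ac
      exact_mod_cast h1
    have h3 : ((S.image f).card : ℝ) ≤ Fintype.card V := by
      exact_mod_cast card_image_le.trans (card_le_univ S)
    linarith
  -- main term
  set A : ℝ := Fintype.card W * (1 + x0) - θ * (qm * (k * d)) -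
        (1 + x0) * (k * d / M) - (θ * Q + (1 + x0) * Fintype.card W / M) * (p * d) with hA
  set K0 : ℝ := (1 + x0) * (Fintype.card W * p) with hK0
  set K1 : ℝ := (1 + x0) * (k + Q * p / qm) with hK1
  have hQ0 : 0 ≤ Q := le_trans (by positivity) hQ
  have hK00 : 0 ≤ K0 := by rw [hK0]; positivity
  have hK10 : 0 ≤ K1 := by rw [hK1]; positivity
  have hmain : ∑ f : V → W, (if Ok G H S f then Real.exp (-x0) * (A -
      K0 * (∑ t ∈ U, zz G H S s0 t f) - K1 * (∑ t ∈ U, zz G H S s1 t f)) else 0) ≤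
      ∑ f : V → W, (if Ok G H S f then (1 : ℝ) else 0) *
        ((univ.filter fun y => NA H y U f).card : ℝ) := by
    have e1 : ∑ f : V → W, (if Ok G H S f then (1 : ℝ) else 0) *
        ((univ.filter fun y => NA H y U f).card : ℝ) =
        ∑ y : W, ∑ f : V → W, (if Ok G H S f ∧ NA H y U f then (1 : ℝ) else 0) := by
      rw [sum_comm]
      refine sum_congr rfl fun f _ => ?_
      by_cases h : Ok G H S f
      · simp [h]
      · simp [h]
    rw [e1]
    refine le_trans ?_ (sum_le_sum fun y _ => key (G := G) (S := S) (M := M) (s0 := s0) (qm := qm)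
      hp hp1 hD hk.le hρ (by linarith) hqm1.le hW y hUS)
    rw [sum_comm]
    refine sum_le_sum fun f _ => ?_
    by_cases h : Ok G H S f
    · simp only [h, if_true]
      exact avg_coins hp hp1 hM hk hρ0 hD htri hs0 hqm hqm1 hs01 hs1 hθ hθ0 hx0 hQ hUd f
    · simp [h]
  -- error terms
  have herr : ∀ s : ℝ, 0 ≤ s → ∑ f : V → W, (if Ok G H S f then (1 : ℝ) else 0) *
      (∑ t ∈ U, zz G H S s t f) ≤ d * (s / β) * cnt G H S := by
    intro s hs
    have e1 : ∑ f : V → W, (if Ok G H S f then (1 : ℝ) else 0) *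
        (∑ t ∈ U, zz G H S s t f) =
        ∑ u ∈ U, ∑ f : V → W, (if Ok G H S f ∧ ac G H (S.erase u) u f ≤ s
          then (1 : ℝ) else 0) := by
      rw [sum_comm]
      refine sum_congr rfl fun f _ => ?_
      unfold zz
      by_cases h : Ok G H S f
      · simp [h]
      · simp [h]
    rw [e1]
    calc ∑ u ∈ U, ∑ f : V → W, (if Ok G H S f ∧ ac G H (S.erase u) u f ≤ s
          then (1 : ℝ) else 0) ≤ ∑ u ∈ U, (s / β * cnt G H S) := by
          refine sum_le_sum fun u hu => ?_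
          have huS : u ∈ S := hUS hu
          have h1 := few_short huS hs hW (ih u huS) hβ.le
          rw [div_mul_eq_mul_div, le_div_iff₀ hβ, mul_comm]
          exact h1
      _ = U.card * (s / β * cnt G H S) := by rw [sum_const, nsmul_eq_mul]
      _ ≤ d * (s / β * cnt G H S) := by
          refine mul_le_mul_of_nonneg_right (by exact_mod_cast hUd) ?_
          exact mul_nonneg (by positivity) (cnt_nonneg S)
      _ = _ := by ring
  have hsum : ∑ f : V → W, (if Ok G H S f then (1 : ℝ) else 0) *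
      (((univ.filter fun y => NA H y U f).card : ℝ) - Fintype.card V) ≤
      ∑ f : V → W, (if Ok G H S f then (1 : ℝ) else 0) * ac G H S v f := by
    refine sum_le_sum fun f _ => mul_le_mul_of_nonneg_left (hpt f) ?_
    split_ifs <;> norm_num
  refine le_trans ?_ hsum
  have e3 : ∑ f : V → W, (if Ok G H S f then (1 : ℝ) else 0) *
      (((univ.filter fun y => NA H y U f).card : ℝ) - Fintype.card V) =
      ∑ f : V → W, (if Ok G H S f then (1 : ℝ) else 0) *
        ((univ.filter fun y => NA H y U f).card : ℝ) - Fintype.card V * cnt G H S := by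
    unfold cnt
    rw [mul_sum, ← sum_sub_distrib]
    refine sum_congr rfl fun f _ => ?_
    ring
  rw [e3]
  have e4 : ∑ f : V → W, (if Ok G H S f then Real.exp (-x0) * (A -
      K0 * (∑ t ∈ U, zz G H S s0 t f) - K1 * (∑ t ∈ U, zz G H S s1 t f)) else 0) =
      Real.exp (-x0) * (A * cnt G H S -
        K0 * (∑ f : V → W, (if Ok G H S f then (1 : ℝ) else 0) * (∑ t ∈ U, zz G H S s0 t f)) -
        K1 * (∑ f : V → W, (if Ok G H S f then (1 : ℝ) else 0) *
          (∑ t ∈ U, zz G H S s1 t f))) := by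
    unfold cnt
    rw [mul_sum, mul_sum, mul_sum, ← sum_sub_distrib, ← sum_sub_distrib, mul_sum]
    refine sum_congr rfl fun f _ => ?_
    by_cases h : Ok G H S f
    · simp [h]
    · simp [h]
  rw [e4] at hmain
  have h0 := cnt_nonneg (G := G) (H := H) S
  have hE := Real.exp_pos (-x0)
  have h1 := mul_le_mul_of_nonneg_left (herr s0 hs0p.le) hK00
  have h2 := mul_le_mul_of_nonneg_left (herr s1 (by linarith)) hK10
  have h3 : Real.exp (-x0) * (A * cnt G H S - K0 * (d * (s0 / β) * cnt G H S) -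
      K1 * (d * (s1 / β) * cnt G H S)) ≤
      Real.exp (-x0) * (A * cnt G H S -
        K0 * (∑ f : V → W, (if Ok G H S f then (1 : ℝ) else 0) * (∑ t ∈ U, zz G H S s0 t f)) -
        K1 * (∑ f : V → W, (if Ok G H S f then (1 : ℝ) else 0) *
          (∑ t ∈ U, zz G H S s1 t f))) :=
    mul_le_mul_of_nonneg_left (by linarith) hE.le
  have h4 := mul_le_mul_of_nonneg_right hfin h0
  have e5 : Real.exp (-x0) * (A - K0 * (d * (s0 / β)) - K1 * (d * (s1 / β))) * cnt G H S =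
      Real.exp (-x0) * (A * cnt G H S - K0 * (d * (s0 / β) * cnt G H S) -
      K1 * (d * (s1 / β) * cnt G H S)) := by ring
  rw [e5] at h4
  linarith

end Pool.Agent.H8.SD
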